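import Mathlib

/-!
# Positive definite kernels and a linear programming bound for codes over four letters
-/

set_option autoImplicit false

namespace Pool.Agent.FPB

open Finset

/-- sums of products `g x * g y` -/
def PDk {α : Type} (K : α → α → ℝ) : Prop :=
  ∃ (J : Type) (_ : Fintype J) (g : J → α → ℝ), ∀ x y, K x y = ∑ j, g j x * g j y

variable {α : Type}

theorem PDk.sum_nonneg {K : α → α → ℝ} (h : PDk K) (C : Finset α) :
    0 ≤ ∑ x ∈ C, ∑ y ∈ C, K x y := by
  obtain ⟨J, hJ, g, hg⟩ := h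
  have h1 : ∑ x ∈ C, ∑ y ∈ C, K x y = ∑ j, (∑ x ∈ C, g j x) ^ 2 := by
    have h2 : ∀ x ∈ C, ∑ y ∈ C, K x y = ∑ j, g j x * ∑ y ∈ C, g j y := by
      intro x _
      rw [sum_congr rfl fun y _ => hg x y, sum_comm]
      exact sum_congr rfl fun j _ => (mul_sum _ _ _).symm
    rw [sum_congr rfl h2, sum_comm]
    refine sum_congr rfl fun j _ => ?_
    rw [← sum_mul, sq]
  rw [h1]
  positivity

theorem PDk.mul {K L : α → α → ℝ} (h : PDk K) (h' : PDk L) : PDk (fun x y => K x y * L x y) := by
  obtain ⟨J, hJ, g, hg⟩ := h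
  obtain ⟨J', hJ', g', hg'⟩ := h'
  refine ⟨J × J', inferInstance, fun j x => g j.1 x * g' j.2 x, fun x y => ?_⟩
  show K x y * L x y = ∑ j : J × J', (g j.1 x * g' j.2 x) * (g j.1 y * g' j.2 y)
  rw [hg, hg', sum_mul_sum, Fintype.sum_prod_type]
  exact sum_congr rfl fun i _ => sum_congr rfl fun j _ => by ring

theorem PDk.add {K L : α → α → ℝ} (h : PDk K) (h' : PDk L) : PDk (fun x y => K x y + L x y) := by
  obtain ⟨J, hJ, g, hg⟩ := h
  obtain ⟨J', hJ', g', hg'⟩ := h'
  refine ⟨J ⊕ J', inferInstance, fun j => Sum.elim g g' j, fun x y => ?_⟩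
  show K x y + L x y = ∑ j : J ⊕ J', Sum.elim g g' j x * Sum.elim g g' j y
  rw [hg, hg', Fintype.sum_sum_type]
  rfl

theorem PDk.const {c : ℝ} (hc : 0 ≤ c) : PDk (fun _ _ : α => c) :=
  ⟨Unit, inferInstance, fun _ _ => √c, fun x y => by simp [Real.mul_self_sqrt hc]⟩

theorem PDk.smul {K : α → α → ℝ} (h : PDk K) {c : ℝ} (hc : 0 ≤ c) :
    PDk (fun x y => c * K x y) := (PDk.const hc).mul h

theorem PDk.sum {β : Type} (s : Finset β) (K : β → α → α → ℝ) (h : ∀ b ∈ s, PDk (K b)) :
    PDk (fun x y => ∑ b ∈ s, K b x y) := by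
  classical
  induction s using Finset.induction_on with
  | empty => simpa using PDk.const (α := α) (le_refl (0 : ℝ))
  | insert b s hb ih =>
    have h1 := (h b (mem_insert_self _ _)).add (ih fun c hc => h c (mem_insert_of_mem hc))
    simpa [sum_insert hb] using h1

theorem PDk.prod {β : Type} (s : Finset β) (K : β → α → α → ℝ) (h : ∀ b ∈ s, PDk (K b)) :
    PDk (fun x y => ∏ b ∈ s, K b x y) := by
  classical
  induction s using Finset.induction_on with
  | empty => simpa using PDk.const (α := α) (zero_le_one : (0 : ℝ) ≤ 1)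
  | insert b s hb ih =>
    have h1 := (h b (mem_insert_self _ _)).mul (ih fun c hc => h c (mem_insert_of_mem hc))
    simpa [prod_insert hb] using h1

/-- a sign kernel -/
theorem PDk.sign (s : α → ℝ) : PDk (fun x y => s x * s y) :=
  ⟨Unit, inferInstance, fun _ => s, fun x y => by simp⟩

/-- rows of a Hadamard matrix of order four -/
def vv : Fin 3 → Fin 4 → ℝ
  | 0 => ![1, 1, -1, -1]
  | 1 => ![1, -1, 1, -1]
  | 2 => ![1, -1, -1, 1]

theorem vv_sum (a b : Fin 4) : ∑ j, vv j a * vv j b = if a = b then 3 else -1 := by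
  fin_cases a <;> fin_cases b <;> simp [Fin.sum_univ_three, vv] <;> norm_num

/-- the kernel of one coordinate -/
noncomputable def tt (c : α → Fin 4) (x y : α) : ℝ := if c x = c y then 3 else -1

theorem tt_pd (c : α → Fin 4) : PDk (tt c) :=
  ⟨Fin 3, inferInstance, fun j x => vv j (c x), fun x y => by
    unfold tt
    exact (vv_sum _ _).symm⟩

theorem tt_sq (c : α → Fin 4) (x y : α) : tt c x y * tt c x y = 3 + 2 * tt c x y := by
  unfold tt
  split_ifs <;> norm_num

theorem tt_self (c : α → Fin 4) (x : α) : tt c x x = 3 := by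
  unfold tt
  simp

variable {ι : Type}

/-- the kernel of a set of coordinates -/
noncomputable def EE (c : ι → α → Fin 4) (S : Finset ι) (x y : α) : ℝ := ∏ p ∈ S, tt (c p) x y

theorem EE_pd (c : ι → α → Fin 4) (S : Finset ι) : PDk (EE c S) :=
  PDk.prod S (fun p => tt (c p)) fun p _ => tt_pd (c p)

theorem EE_self (c : ι → α → Fin 4) (S : Finset ι) (x : α) : EE c S x x = 3 ^ S.card := by
  unfold EE
  rw [prod_congr rfl fun p _ => tt_self (c p) x, prod_const]

theorem EE_insert [DecidableEq ι] (c : ι → α → Fin 4) {S : Finset ι} {p : ι} (hp : p ∉ S) (x y : α) :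
    tt (c p) x y * EE c S x y = EE c (insert p S) x y := by
  unfold EE
  rw [prod_insert hp]

theorem EE_erase [DecidableEq ι] (c : ι → α → Fin 4) {S : Finset ι} {p : ι} (hp : p ∈ S) (x y : α) :
    tt (c p) x y * EE c S x y = 3 * EE c (S.erase p) x y + 2 * EE c S x y := by
  have h1 : EE c S x y = tt (c p) x y * EE c (S.erase p) x y := by
    rw [EE_insert c (notMem_erase p S), insert_erase hp]
  calc tt (c p) x y * EE c S x y = tt (c p) x y * tt (c p) x y * EE c (S.erase p) x y := by
        rw [h1]; ring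
    _ = _ := by rw [tt_sq, h1]; ring

variable [Fintype ι] [DecidableEq ι]

/-- the operator -/
noncomputable def MM (w : ι → ℝ) (h : Finset ι → ℝ) (S : Finset ι) : ℝ :=
  ∑ p ∈ S, w p * h (S.erase p) + 3 * ∑ p ∈ Sᶜ, w p * h (insert p S) + 2 * (∑ p ∈ S, w p) * h S

/-- the combination of kernels -/
noncomputable def FF (c : ι → α → Fin 4) (h : Finset ι → ℝ) (x y : α) : ℝ :=
  ∑ S, h S * EE c S x y

theorem sum_swap_insert (F : Finset ι → ι → ℝ) :
    ∑ S : Finset ι, ∑ p ∈ Sᶜ, F S p = ∑ S : Finset ι, ∑ p ∈ S, F (S.erase p) p := by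
  rw [sum_comm' (t' := univ) (s' := fun p => univ.filter fun S : Finset ι => p ∉ S)
    (by intro S p; simp),
    sum_comm' (t' := univ) (s' := fun p => univ.filter fun S : Finset ι => p ∈ S)
    (by intro S p; simp)]
  refine sum_congr rfl fun p _ => ?_
  refine sum_bij' (fun S _ => insert p S) (fun S _ => S.erase p) ?_ ?_ ?_ ?_ ?_
  · intro S hS; simp
  · intro S hS; simp
  · intro S hS
    rw [mem_filter] at hS
    exact erase_insert hS.2
  · intro S hS
    rw [mem_filter] at hS
    exact insert_erase hS.2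
  · intro S hS
    rw [mem_filter] at hS
    rw [erase_insert hS.2]

theorem sum_swap_erase (F : Finset ι → ι → ℝ) :
    ∑ S : Finset ι, ∑ p ∈ S, F S p = ∑ S : Finset ι, ∑ p ∈ Sᶜ, F (insert p S) p := by
  rw [sum_swap_insert]
  refine sum_congr rfl fun S _ => sum_congr rfl fun p hp => ?_
  rw [insert_erase hp]

/-- multiplication by the weighted kernel -/
theorem TT_FF (c : ι → α → Fin 4) (w : ι → ℝ) (h : Finset ι → ℝ) (x y : α) :
    (∑ p, w p * tt (c p) x y) * FF c h x y = FF c (MM w h) x y := by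
  unfold FF MM
  have h1 : (∑ p, w p * tt (c p) x y) * ∑ S, h S * EE c S x y =
      ∑ S, ∑ p ∈ Sᶜ, w p * h S * EE c (insert p S) x y +
      (3 * ∑ S, ∑ p ∈ S, w p * h S * EE c (S.erase p) x y +
        2 * ∑ S, (∑ p ∈ S, w p) * h S * EE c S x y) := by
    rw [mul_sum, mul_sum, mul_sum, ← sum_add_distrib, ← sum_add_distrib]
    refine sum_congr rfl fun S _ => ?_
    rw [sum_mul, ← sum_add_sum_compl S, add_comm]
    congr 1
    · refine sum_congr rfl fun p hp => ?_
      rw [← EE_insert c (by simpa using hp)]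
      ring
    · rw [mul_sum, sum_mul, sum_mul, mul_sum, ← sum_add_distrib]
      refine sum_congr rfl fun p hp => ?_
      calc w p * tt (c p) x y * (h S * EE c S x y) =
          w p * h S * (tt (c p) x y * EE c S x y) := by ring
        _ = _ := by rw [EE_erase c hp]; ring
  rw [h1, sum_swap_insert (fun S p => w p * h S * EE c (insert p S) x y),
    sum_swap_erase (fun S p => w p * h S * EE c (S.erase p) x y), mul_sum, mul_sum,
    ← sum_add_distrib, ← sum_add_distrib]
  refine sum_congr rfl fun S _ => ?_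
  rw [add_mul, add_mul]
  have e1 : ∑ p ∈ S, w p * h (S.erase p) * EE c (insert p (S.erase p)) x y =
      (∑ p ∈ S, w p * h (S.erase p)) * EE c S x y := by
    rw [sum_mul]
    refine sum_congr rfl fun p hp => ?_
    rw [insert_erase hp]
  have e2 : ∑ p ∈ Sᶜ, w p * h (insert p S) * EE c ((insert p S).erase p) x y =
      (∑ p ∈ Sᶜ, w p * h (insert p S)) * EE c S x y := by
    rw [sum_mul]
    refine sum_congr rfl fun p hp => ?_
    rw [erase_insert (by simpa using hp)]
  rw [e1, e2]
  ring

theorem FF_pd (c : ι → α → Fin 4) {h : Finset ι → ℝ} (h0 : ∀ S, 0 ≤ h S) : PDk (FF c h) :=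
  PDk.sum univ (fun S x y => h S * EE c S x y) fun S _ => (EE_pd c S).smul (h0 S)

/-- the diagonal terms of the square -/
theorem EE_sq_sum (c : ι → α → Fin 4) (S : Finset ι) (C : Finset α) :
    (3 : ℝ) ^ S.card * (C.card : ℝ) ^ 2 ≤ ∑ x ∈ C, ∑ y ∈ C, EE c S x y * EE c S x y := by
  have h1 : ∀ S : Finset ι, PDk (fun x y => EE c S x y * EE c S x y - 3 ^ S.card) := by
    intro S
    induction S using Finset.induction_on with
    | empty => simpa [EE] using PDk.const (α := α) (le_refl (0 : ℝ))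
    | insert p S hp ih =>
      have h2 : PDk (fun x y => 3 * (EE c S x y * EE c S x y - 3 ^ S.card) +
          2 * (tt (c p) x y * (EE c S x y * EE c S x y))) :=
        (ih.smul (by norm_num)).add
          (((tt_pd (c p)).mul ((EE_pd c S).mul (EE_pd c S))).smul (by norm_num))
      refine (iff_of_eq (congrArg PDk ?_)).mp h2
      funext x y
      rw [← EE_insert c hp, card_insert_of_notMem hp, pow_succ]
      have := tt_sq (c p) x y
      linear_combination (-(EE c S x y * EE c S x y)) * this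
  have h2 := (h1 S).sum_nonneg C
  simp only [sum_sub_distrib, sum_const, nsmul_eq_mul] at h2
  linarith

theorem FF_sq_sum (c : ι → α → Fin 4) {h : Finset ι → ℝ} (h0 : ∀ S, 0 ≤ h S) (C : Finset α) :
    (∑ S, h S ^ 2 * 3 ^ S.card) * (C.card : ℝ) ^ 2 ≤
      ∑ x ∈ C, ∑ y ∈ C, FF c h x y * FF c h x y := by
  have h1 : ∑ x ∈ C, ∑ y ∈ C, FF c h x y * FF c h x y =
      ∑ S, ∑ S', h S * h S' * ∑ x ∈ C, ∑ y ∈ C, EE c S x y * EE c S' x y := by
    have h2 : ∀ x y, FF c h x y * FF c h x y =
        ∑ S, ∑ S', h S * h S' * (EE c S x y * EE c S' x y) := by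
      intro x y
      unfold FF
      rw [sum_mul_sum]
      exact sum_congr rfl fun S _ => sum_congr rfl fun S' _ => by ring
    simp only [h2]
    have h3 : ∀ x ∈ C, ∑ y ∈ C, ∑ S, ∑ S', h S * h S' * (EE c S x y * EE c S' x y) =
        ∑ S, ∑ S', h S * h S' * ∑ y ∈ C, (EE c S x y * EE c S' x y) := by
      intro x _
      rw [sum_comm]
      refine sum_congr rfl fun S _ => ?_
      rw [sum_comm]
      exact sum_congr rfl fun S' _ => (mul_sum _ _ _).symm
    rw [sum_congr rfl h3, sum_comm]
    refine sum_congr rfl fun S _ => ?_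
    rw [sum_comm]
    exact sum_congr rfl fun S' _ => (mul_sum _ _ _).symm
  rw [h1, sum_mul]
  refine sum_le_sum fun S _ => ?_
  have h4 : h S * h S * ∑ x ∈ C, ∑ y ∈ C, EE c S x y * EE c S x y ≤
      ∑ S', h S * h S' * ∑ x ∈ C, ∑ y ∈ C, EE c S x y * EE c S' x y := by
    refine single_le_sum (f := fun S' => h S * h S' * ∑ x ∈ C, ∑ y ∈ C,
      EE c S x y * EE c S' x y) (fun S' _ => ?_) (mem_univ S)
    exact mul_nonneg (mul_nonneg (h0 S) (h0 S')) (((EE_pd c S).mul (EE_pd c S')).sum_nonneg C)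
  refine le_trans ?_ h4
  calc h S ^ 2 * 3 ^ S.card * (C.card : ℝ) ^ 2 = h S * h S * (3 ^ S.card * (C.card : ℝ) ^ 2) := by
        ring
    _ ≤ _ := mul_le_mul_of_nonneg_left (EE_sq_sum c S C) (mul_nonneg (h0 S) (h0 S))

/-- the linear programming bound -/
theorem code_bound (c : ι → α → Fin 4) (Q : α → α → ℝ) (hQ : PDk Q) (w : ι → ℝ)
    (h : Finset ι → ℝ) (h0 : ∀ S, 0 ≤ h S) {k : ℕ} (hk : ∀ S, k < S.card → h S = 0)
    (hne : ∃ S, h S ≠ 0) {μ lam D : ℝ} (hM : ∀ S, μ * h S ≤ MM w h S) (C : Finset α)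
    (hoff : ∀ x ∈ C, ∀ y ∈ C, x ≠ y → ∑ p, w p * tt (c p) x y + Q x y ≤ lam)
    (hdiag : ∀ x ∈ C, ∑ p, w p * tt (c p) x x + Q x x ≤ D) (hlD : lam ≤ D) (hlm : lam < μ) :
    (C.card : ℝ) * (μ - lam) ≤
      (D - lam) * ∑ S ∈ (univ : Finset (Finset ι)).filter (fun S => S.card ≤ k), 3 ^ S.card := by
  classical
  set H : ℝ := ∑ S, h S ^ 2 * 3 ^ S.card with hH
  set V : ℝ := ∑ S ∈ (univ : Finset (Finset ι)).filter (fun S => S.card ≤ k), 3 ^ S.card with hV
  have hHpos : 0 < H := by
    obtain ⟨S, hS⟩ := hne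
    refine sum_pos' (fun S _ => by positivity) ⟨S, mem_univ S, ?_⟩
    have : 0 < h S ^ 2 := by positivity
    positivity
  -- lower bound
  have hlow : (μ - lam) * (H * (C.card : ℝ) ^ 2) ≤
      ∑ x ∈ C, ∑ y ∈ C, (∑ p, w p * tt (c p) x y + Q x y - lam) * (FF c h x y * FF c h x y) := by
    have e1 : ∀ x y, (∑ p, w p * tt (c p) x y + Q x y - lam) * (FF c h x y * FF c h x y) =
        (FF c (fun S => MM w h S - μ * h S) x y * FF c h x y + Q x y * (FF c h x y * FF c h x y)) +
          (μ - lam) * (FF c h x y * FF c h x y) := by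
      intro x y
      have e2 := TT_FF c w h x y
      have e3 : FF c (fun S => MM w h S - μ * h S) x y =
          FF c (MM w h) x y - μ * FF c h x y := by
        unfold FF
        rw [mul_sum, ← sum_sub_distrib]
        exact sum_congr rfl fun S _ => by ring
      rw [e3, ← e2]
      ring
    simp only [e1, sum_add_distrib]
    have p1 := ((FF_pd c (h := fun S => MM w h S - μ * h S)
      (fun S => sub_nonneg.2 (hM S))).mul (FF_pd c h0)).sum_nonneg C
    have p2 := (hQ.mul ((FF_pd c h0).mul (FF_pd c h0))).sum_nonneg C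
    have p3 := FF_sq_sum c h0 C
    have p4 : (μ - lam) * (H * (C.card : ℝ) ^ 2) ≤
        ∑ x ∈ C, ∑ y ∈ C, (μ - lam) * (FF c h x y * FF c h x y) := by
      have p5 : ∑ x ∈ C, ∑ y ∈ C, (μ - lam) * (FF c h x y * FF c h x y) =
          (μ - lam) * ∑ x ∈ C, ∑ y ∈ C, FF c h x y * FF c h x y := by
        rw [mul_sum]
        exact sum_congr rfl fun x _ => (mul_sum _ _ _).symm
      rw [p5]
      exact mul_le_mul_of_nonneg_left p3 (by linarith)
    linarith
  -- upper bound
  have hself : ∀ x, FF c h x x = ∑ S ∈ (univ : Finset (Finset ι)).filter (fun S => S.card ≤ k),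
      h S * 3 ^ S.card := by
    intro x
    unfold FF
    rw [sum_filter]
    refine sum_congr rfl fun S _ => ?_
    rw [EE_self]
    split_ifs with hS
    · rfl
    · rw [hk S (not_le.1 hS), zero_mul]
  have hselfsq : ∀ x, FF c h x x * FF c h x x ≤ H * V := by
    intro x
    rw [hself x, ← sq]
    have cs := sum_mul_sq_le_sq_mul_sq ((univ : Finset (Finset ι)).filter (fun S => S.card ≤ k))
      (fun S => h S * √(3 ^ S.card)) (fun S => √(3 ^ S.card))
    have e1 : ∀ S : Finset ι, √((3 : ℝ) ^ S.card) * √((3 : ℝ) ^ S.card) = 3 ^ S.card :=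
      fun S => Real.mul_self_sqrt (by positivity)
    have e2 : ∀ S : Finset ι, √((3 : ℝ) ^ S.card) ^ 2 = 3 ^ S.card :=
      fun S => Real.sq_sqrt (by positivity)
    simp only [mul_assoc, e1, mul_pow, e2] at cs
    refine cs.trans ?_
    apply mul_le_mul_of_nonneg_right _ (sum_nonneg fun S _ => by positivity)
    exact sum_le_sum_of_subset_of_nonneg (filter_subset _ _) fun S _ _ => by positivity
  have hup : ∑ x ∈ C, ∑ y ∈ C, (∑ p, w p * tt (c p) x y + Q x y - lam) *
      (FF c h x y * FF c h x y) ≤ C.card * ((D - lam) * (H * V)) := by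
    have u1 : ∀ x ∈ C, ∑ y ∈ C, (∑ p, w p * tt (c p) x y + Q x y - lam) *
        (FF c h x y * FF c h x y) ≤ (D - lam) * (H * V) := by
      intro x hx
      calc ∑ y ∈ C, (∑ p, w p * tt (c p) x y + Q x y - lam) * (FF c h x y * FF c h x y)
          ≤ ∑ y ∈ C, (if y = x then (D - lam) * (H * V) else 0) := by
            refine sum_le_sum fun y hy => ?_
            split_ifs with hyx
            · subst hyx
              have d1 := hdiag y hy
              have d2 := hselfsq y
              have d3 : 0 ≤ FF c h y y * FF c h y y := mul_self_nonneg _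
              calc _ ≤ (D - lam) * (FF c h y y * FF c h y y) :=
                    mul_le_mul_of_nonneg_right (by linarith) d3
                _ ≤ _ := mul_le_mul_of_nonneg_left d2 (by linarith)
            · have d1 := hoff x hx y hy (fun h => hyx h.symm)
              have d3 : 0 ≤ FF c h x y * FF c h x y := mul_self_nonneg _
              exact mul_nonpos_of_nonpos_of_nonneg (by linarith) d3
        _ = (D - lam) * (H * V) := by
            rw [sum_ite_eq' C x, if_pos hx]
    calc _ ≤ ∑ x ∈ C, (D - lam) * (H * V) := sum_le_sum u1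
      _ = _ := by rw [sum_const, nsmul_eq_mul]
  have hfin := hlow.trans hup
  rcases Nat.eq_zero_or_pos C.card with hC | hC
  · rw [hC]
    simp only [Nat.cast_zero, zero_mul]
    exact mul_nonneg (by linarith) (sum_nonneg fun S _ => by positivity)
  · have hC' : (0 : ℝ) < C.card := by exact_mod_cast hC
    have h5 : (C.card * H) * ((C.card : ℝ) * (μ - lam)) ≤ (C.card * H) * ((D - lam) * V) := by
      calc (C.card * H) * ((C.card : ℝ) * (μ - lam)) = (μ - lam) * (H * (C.card : ℝ) ^ 2) := by ring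
        _ ≤ C.card * ((D - lam) * (H * V)) := hfin
        _ = _ := by ring
    exact le_of_mul_le_mul_left h5 (by positivity)

end Pool.Agent.FPB
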