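import Pool.Agent.Lib_helper21.FPB.Sol

/-!
# Coprime solutions of `x ^ 4 - y ^ 4 = r` and all solutions (MP_7dc427_nt): the count
-/

set_option autoImplicit false

namespace Pool.Agent.FPB

open Finset Pool.Agent.FP

theorem sol_box {r : ℕ} (hr : 0 < r) {P : ℕ × ℕ} (hP : IsSol r P) :
    P ∈ range (2 * r + 1) ×ˢ range (2 * r + 1) := by
  have hr1 : (1 : ℝ) ≤ r := by exact_mod_cast hr
  have h2 := sol_size hr hP
  have h3 : Real.sqrt r ≤ r := by
    rw [Real.sqrt_le_left (by linarith)]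
    nlinarith
  have h4 : ((P.1 + P.2 : ℕ) : ℝ) ≤ ((2 * r : ℕ) : ℝ) := by
    push_cast
    linarith
  have h5 : P.1 + P.2 ≤ 2 * r := by exact_mod_cast h4
  rw [Finset.mem_product, Finset.mem_range, Finset.mem_range]
  omega

/-- the large values -/
theorem cop_large {r : ℕ} (hr : 0 < r) (S : Finset (ℕ × ℕ)) (hS : ∀ P ∈ S, IsSol r P)
    (hcop : ∀ P ∈ S, Nat.Coprime P.1 P.2) (hbig : 6000000 ≤ Real.log r) :
    (S.card : ℝ) ≤ 150000150000 * (1.3764 : ℝ) ^ PAD * (1.3764 : ℝ) ^ (P1 r).card := by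
  classical
  set η : ℝ := Real.log r / 1000000 with hη
  have hη0 : 0 < η := by rw [hη]; linarith
  have hmap : ∀ P ∈ S, cls η P ∈ range (1000000 + 1) := by
    intro P hP
    rw [mem_range, Nat.lt_succ_iff]
    have h6 : Real.log ((P.1 : ℝ) + P.2) ≤ Real.log r := by
      have hx := (hS P hP).1
      have hx' : (1 : ℝ) ≤ P.1 := by exact_mod_cast hx
      have hy' : (0 : ℝ) ≤ P.2 := Nat.cast_nonneg _
      apply Real.log_le_log (by linarith)
      refine (sol_size hr (hS P hP)).trans ?_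
      have hr' : (0 : ℝ) < r := by exact_mod_cast hr
      have h4 : (4 : ℝ) ≤ r := by
        have hl4 : Real.log 4 < 1.4 := by
          have h1 : Real.log 4 = 2 * Real.log 2 := by
            rw [show (4 : ℝ) = 2 ^ 2 by norm_num, Real.log_pow]; norm_num
          have := Real.log_two_lt_d9
          linarith
        have : Real.log 4 ≤ Real.log r := by linarith
        exact (Real.log_le_log_iff (by norm_num) hr').mp this
      have h5 : 2 ≤ Real.sqrt r := by
        rw [Real.le_sqrt' (by norm_num)]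
        linarith
      have h6 : Real.sqrt r * Real.sqrt r = r := Real.mul_self_sqrt hr'.le
      nlinarith
    have h7 : Real.log ((P.1 : ℝ) + P.2) / η ≤ ((1000000 : ℕ) : ℝ) := by
      rw [div_le_iff₀ hη0, hη]
      push_cast
      linarith
    exact (Nat.floor_mono h7).trans (by rw [Nat.floor_natCast])
  have hfib : ∀ b ∈ range (1000000 + 1), ((S.filter (fun P => cls η P = b)).card : ℝ) ≤
      150000 * (1.3764 : ℝ) ^ ((P1 r).card + PAD) := by
    intro b _
    apply one_class hr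
    · intro P hP
      exact hS P (mem_filter.mp hP).1
    · intro P hP
      exact hcop P (mem_filter.mp hP).1
    · exact hbig
    · intro P hP Q hQ
      have h1 := (mem_filter.mp hP)
      have h2 := (mem_filter.mp hQ)
      exact cls_near hη0 (hS P h1.1).1 (hS Q h2.1).1 (h1.2.trans h2.2.symm)
  have h := card_eq_sum_card_fiberwise hmap
  have h' : (S.card : ℝ) = ∑ b ∈ range (1000000 + 1),
      ((S.filter (fun P => cls η P = b)).card : ℝ) := by
    exact_mod_cast h
  rw [h']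
  refine (sum_le_sum hfib).trans ?_
  rw [sum_const, card_range, nsmul_eq_mul, pow_add]
  push_cast
  apply le_of_eq
  ring

/-- the constant -/
noncomputable def CC : ℝ :=
  150000150000 * (1.3764 : ℝ) ^ PAD + (2 * Real.exp 6000000 + 1) ^ 2

theorem CC_pos : 0 < CC := by unfold CC; positivity

theorem cop_all {r : ℕ} (hr : 0 < r) (S : Finset (ℕ × ℕ)) (hS : ∀ P ∈ S, IsSol r P)
    (hcop : ∀ P ∈ S, Nat.Coprime P.1 P.2) :
    (S.card : ℝ) ≤ CC * (1.3764 : ℝ) ^ (P1 r).card := by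
  have hV : (1 : ℝ) ≤ (1.3764 : ℝ) ^ (P1 r).card := one_le_pow₀ (by norm_num)
  have hA : 0 ≤ 150000150000 * (1.3764 : ℝ) ^ PAD := by positivity
  have hB : 0 ≤ (2 * Real.exp 6000000 + 1) ^ 2 := by positivity
  by_cases hbig : 6000000 ≤ Real.log r
  · refine (cop_large hr S hS hcop hbig).trans ?_
    apply mul_le_mul_of_nonneg_right _ (by linarith)
    unfold CC
    linarith
  · have hr0 : (0 : ℝ) < r := by exact_mod_cast hr
    have h1 : (r : ℝ) ≤ Real.exp 6000000 := by
      rw [← Real.exp_log hr0]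
      exact Real.exp_le_exp.mpr (le_of_lt (not_le.mp hbig))
    have h2 : S.card ≤ (2 * r + 1) * (2 * r + 1) := by
      refine (card_le_card (fun P hP => sol_box hr (hS P hP))).trans ?_
      rw [card_product, card_range]
    have h3 : (S.card : ℝ) ≤ (2 * r + 1) ^ 2 := by
      rw [pow_two]
      exact_mod_cast h2
    have h4 : (2 * (r : ℝ) + 1) ^ 2 ≤ (2 * Real.exp 6000000 + 1) ^ 2 :=
      pow_le_pow_left₀ (by linarith) (by linarith) 2
    have h5 : (S.card : ℝ) ≤ CC := by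
      unfold CC
      linarith
    have h6 : CC * 1 ≤ CC * (1.3764 : ℝ) ^ (P1 r).card :=
      mul_le_mul_of_nonneg_left hV CC_pos.le
    linarith

/-- the general case -/
theorem gen_all {r : ℕ} (hr : 0 < r) (S : Finset (ℕ × ℕ)) (hS : ∀ P ∈ S, IsSol r P) :
    (S.card : ℝ) ≤ CC * ((r.divisors.filter (fun d => d ^ 4 ∣ r)).card : ℝ) *
      (1.3764 : ℝ) ^ (P1 r).card := by
  classical
  have hmap : ∀ P ∈ S, Nat.gcd P.1 P.2 ∈ r.divisors.filter (fun d => d ^ 4 ∣ r) := by
    intro P hP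
    obtain ⟨hx, hy, h⟩ := hS P hP
    have h1 : Nat.gcd P.1 P.2 ^ 4 ∣ r := by
      have h2 : Nat.gcd P.1 P.2 ^ 4 ∣ P.1 ^ 4 := pow_dvd_pow_of_dvd (Nat.gcd_dvd_left _ _) 4
      have h3 : Nat.gcd P.1 P.2 ^ 4 ∣ P.2 ^ 4 := pow_dvd_pow_of_dvd (Nat.gcd_dvd_right _ _) 4
      rw [h] at h2
      exact (Nat.dvd_add_right h3).1 h2
    rw [mem_filter, Nat.mem_divisors]
    exact ⟨⟨(dvd_pow_self _ (by norm_num)).trans h1, hr.ne'⟩, h1⟩
  have hfib : ∀ d ∈ r.divisors.filter (fun d => d ^ 4 ∣ r),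
      ((S.filter (fun P => Nat.gcd P.1 P.2 = d)).card : ℝ) ≤
      CC * (1.3764 : ℝ) ^ (P1 r).card := by
    intro d hd
    rw [mem_filter, Nat.mem_divisors] at hd
    obtain ⟨⟨hdr, -⟩, k, hk⟩ := hd
    have hd0 : 0 < d := Nat.pos_of_ne_zero (by rintro rfl; rw [Nat.zero_dvd] at hdr; omega)
    have hk0 : 0 < k := Nat.pos_of_ne_zero (by rintro rfl; omega)
    set T := (S.filter (fun P => Nat.gcd P.1 P.2 = d)).image (fun P => (P.1 / d, P.2 / d)) with hT
    have hinj : Set.InjOn (fun P : ℕ × ℕ => (P.1 / d, P.2 / d))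
        (S.filter (fun P => Nat.gcd P.1 P.2 = d) : Finset (ℕ × ℕ)) := by
      rintro ⟨a, b⟩ hP ⟨a', b'⟩ hQ hPQ
      have hP' := (mem_filter.mp (mem_coe.mp hP)).2
      have hQ' := (mem_filter.mp (mem_coe.mp hQ)).2
      simp only at hP' hQ' hPQ
      rw [Prod.mk.injEq] at hPQ
      have e1 : d ∣ a := by rw [← hP']; exact Nat.gcd_dvd_left _ _
      have e2 : d ∣ b := by rw [← hP']; exact Nat.gcd_dvd_right _ _
      have e3 : d ∣ a' := by rw [← hQ']; exact Nat.gcd_dvd_left _ _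
      have e4 : d ∣ b' := by rw [← hQ']; exact Nat.gcd_dvd_right _ _
      rw [← Nat.mul_div_cancel' e1, ← Nat.mul_div_cancel' e2, ← Nat.mul_div_cancel' e3,
        ← Nat.mul_div_cancel' e4, hPQ.1, hPQ.2]
    have hcard : T.card = (S.filter (fun P => Nat.gcd P.1 P.2 = d)).card :=
      card_image_of_injOn hinj
    rw [← hcard]
    have hTs : ∀ P ∈ T, IsSol k P ∧ Nat.Coprime P.1 P.2 := by
      intro P hP
      rw [hT, mem_image] at hP
      obtain ⟨⟨a, b⟩, hab, rfl⟩ := hP
      rw [mem_filter] at hab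
      obtain ⟨h1, h2⟩ := hab
      obtain ⟨hx, hy, h⟩ := hS _ h1
      simp only at hx hy h h2
      have e1 : d ∣ a := by rw [← h2]; exact Nat.gcd_dvd_left _ _
      have e2 : d ∣ b := by rw [← h2]; exact Nat.gcd_dvd_right _ _
      obtain ⟨u, rfl⟩ := e1
      obtain ⟨v, rfl⟩ := e2
      simp only
      rw [Nat.mul_div_cancel_left _ hd0, Nat.mul_div_cancel_left _ hd0]
      refine ⟨⟨Nat.pos_of_mul_pos_left hx, Nat.pos_of_mul_pos_left hy, ?_⟩, ?_⟩
      · show u ^ 4 = v ^ 4 + k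
        have h3 : d ^ 4 * u ^ 4 = d ^ 4 * (v ^ 4 + k) := by
          rw [← mul_pow, h, hk, mul_pow]; ring
        exact Nat.eq_of_mul_eq_mul_left (by positivity) h3
      · show Nat.gcd u v = 1
        rw [Nat.gcd_mul_left] at h2
        exact Nat.eq_of_mul_eq_mul_left hd0 (by rw [h2, mul_one])
    have h := cop_all hk0 T (fun P hP => (hTs P hP).1) (fun P hP => (hTs P hP).2)
    refine h.trans (mul_le_mul_of_nonneg_left ?_ CC_pos.le)
    apply pow_le_pow_right₀ (by norm_num)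
    apply card_le_card
    unfold P1
    apply filter_subset_filter
    exact Nat.primeFactors_mono ⟨d ^ 4, by rw [hk, mul_comm]⟩ hr.ne'
  have h := card_eq_sum_card_fiberwise hmap
  have h' : (S.card : ℝ) = ∑ d ∈ r.divisors.filter (fun d => d ^ 4 ∣ r),
      ((S.filter (fun P => Nat.gcd P.1 P.2 = d)).card : ℝ) := by
    exact_mod_cast h
  rw [h']
  refine (sum_le_sum hfib).trans ?_
  rw [sum_const, nsmul_eq_mul]
  apply le_of_eq
  ring

end Pool.Agent.FPB
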