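import Mathlib

/-!
# A nonnegative eigenvector of a symmetric nonnegative matrix (weighted form)
-/

set_option autoImplicit false

namespace Pool.Agent.FPB

open Finset

variable {I : Type} [Fintype I] [DecidableEq I]

/-- the quadratic form -/
noncomputable def qf (B : I → I → ℝ) (g : I → ℝ) : ℝ := ∑ i, ∑ j, B i j * g i * g j

/-- the weighted square of the norm -/
noncomputable def nf (d : I → ℝ) (g : I → ℝ) : ℝ := ∑ i, d i * g i ^ 2

omit [DecidableEq I] in
theorem qf_smul (B : I → I → ℝ) (g : I → ℝ) (s : ℝ) :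
    qf B (fun i => s * g i) = s ^ 2 * qf B g := by
  unfold qf
  rw [mul_sum]
  refine sum_congr rfl fun i _ => ?_
  rw [mul_sum]
  exact sum_congr rfl fun j _ => by ring

omit [DecidableEq I] in
theorem nf_smul (d : I → ℝ) (g : I → ℝ) (s : ℝ) :
    nf d (fun i => s * g i) = s ^ 2 * nf d g := by
  unfold nf
  rw [mul_sum]
  exact sum_congr rfl fun j _ => by ring

theorem qf_add_single (B : I → I → ℝ) (hs : ∀ i j, B i j = B j i) (g : I → ℝ) (k : I) (ε : ℝ) :
    qf B (fun i => g i + if i = k then ε else 0) =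
      qf B g + 2 * ε * ∑ j, B k j * g j + ε ^ 2 * B k k := by
  unfold qf
  have h1 : ∀ i j, B i j * (g i + if i = k then ε else 0) * (g j + if j = k then ε else 0) =
      B i j * g i * g j + (if j = k then B i k * g i * ε else 0) +
        (if i = k then B k j * ε * g j else 0) +
          (if i = k then (if j = k then B k k * ε * ε else 0) else 0) := by
    intro i j
    by_cases hi : i = k
    · subst hi
      by_cases hj : j = i
      · subst hj; simp; ring
      · simp [hj]; ring
    · by_cases hj : j = k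
      · subst hj; simp [hi]; ring
      · simp [hi, hj]
  simp only [h1, sum_add_distrib, sum_ite_eq', mem_univ, if_true]
  have h2 : ∑ i, B i k * g i * ε = ε * ∑ j, B k j * g j := by
    rw [mul_sum]
    exact sum_congr rfl fun i _ => by rw [hs i k]; ring
  have h3 : ∑ x, ∑ x_1, (if x = k then B k x_1 * ε * g x_1 else 0) = ε * ∑ j, B k j * g j := by
    rw [sum_eq_single k]
    · simp only [if_true]
      rw [mul_sum]
      exact sum_congr rfl fun i _ => by ring
    · intro b _ hb
      simp [hb]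
    · intro h; exact absurd (mem_univ k) h
  have h4 : ∑ x, ∑ x_1, (if x = k then (if x_1 = k then B k k * ε * ε else 0) else 0) =
      ε ^ 2 * B k k := by
    rw [sum_eq_single k]
    · simp only [if_true, sum_ite_eq', mem_univ]
      ring
    · intro b _ hb
      simp [hb]
    · intro h; exact absurd (mem_univ k) h
  rw [h2, h3, h4]
  ring

theorem nf_add_single (d : I → ℝ) (g : I → ℝ) (k : I) (ε : ℝ) :
    nf d (fun i => g i + if i = k then ε else 0) =
      nf d g + 2 * ε * (d k * g k) + ε ^ 2 * d k := by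
  unfold nf
  have h1 : ∀ i, d i * (g i + if i = k then ε else 0) ^ 2 =
      d i * g i ^ 2 + (if i = k then 2 * ε * (d k * g k) + ε ^ 2 * d k else 0) := by
    intro i
    by_cases hi : i = k
    · subst hi; simp; ring
    · simp [hi]
  simp only [h1, sum_add_distrib, sum_ite_eq', mem_univ, if_true]
  ring

theorem lin_zero {a b : ℝ} (h : ∀ ε : ℝ, 2 * ε * a + ε ^ 2 * b ≤ 0) : a = 0 := by
  by_contra ha
  have hb : 0 < |b| + 1 := by positivity
  have h1 := h (a / (|b| + 1))
  have h2 : 2 * (a / (|b| + 1)) * a + (a / (|b| + 1)) ^ 2 * b =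
      a ^ 2 * (2 * (|b| + 1) + b) / (|b| + 1) ^ 2 := by
    field_simp
  rw [h2] at h1
  have h3 : 0 < 2 * (|b| + 1) + b := by
    have := neg_abs_le b
    have := abs_nonneg b
    linarith
  have h4 : 0 < a ^ 2 * (2 * (|b| + 1) + b) / (|b| + 1) ^ 2 := by positivity
  linarith

theorem perron (B : I → I → ℝ) (hs : ∀ i j, B i j = B j i) (hB : ∀ i j, 0 ≤ B i j)
    (d : I → ℝ) (hd : ∀ i, 0 < d i) (g₀ : I → ℝ) (hg₀ : ∃ i, g₀ i ≠ 0) :
    ∃ (h : I → ℝ) (μ : ℝ), (∀ i, 0 ≤ h i) ∧ (∃ i, h i ≠ 0) ∧
      (∀ i, ∑ j, B i j * h j = μ * (d i * h i)) ∧ qf B g₀ ≤ μ * nf d g₀ := by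
  have hpos : ∀ g : I → ℝ, (∃ i, g i ≠ 0) → 0 < nf d g := by
    rintro g ⟨i, hi⟩
    have : 0 < g i ^ 2 := by positivity
    exact sum_pos' (fun j _ => mul_nonneg (hd j).le (sq_nonneg _))
      ⟨i, mem_univ i, mul_pos (hd i) this⟩
  set Sp : Set (I → ℝ) := {g | nf d g = 1} with hSp
  have hcn : Continuous (nf d) := by unfold nf; fun_prop
  have hcq : Continuous (qf B) := by unfold qf; fun_prop
  have hclosed : IsClosed Sp := isClosed_eq hcn continuous_const
  have hbdd : Bornology.IsBounded Sp := by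
    rw [isBounded_iff_forall_norm_le]
    refine ⟨∑ i, (1 + (d i)⁻¹), fun g hg => ?_⟩
    rw [pi_norm_le_iff_of_nonneg (sum_nonneg fun i _ => by have := hd i; positivity)]
    intro i
    have h1 : d i * g i ^ 2 ≤ 1 := by
      rw [← (show nf d g = 1 from hg)]
      exact single_le_sum (f := fun i => d i * g i ^ 2)
        (fun j _ => mul_nonneg (hd j).le (sq_nonneg _)) (mem_univ i)
    have h2 : g i ^ 2 ≤ (d i)⁻¹ := by
      rw [← one_div, le_div_iff₀ (hd i)]
      linarith
    have h3 : |g i| ≤ 1 + (d i)⁻¹ := by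
      have : |g i| ^ 2 ≤ (d i)⁻¹ := by rwa [sq_abs]
      nlinarith [abs_nonneg (g i), sq_nonneg (|g i| - 1)]
    rw [Real.norm_eq_abs]
    refine h3.trans (single_le_sum (f := fun i => 1 + (d i)⁻¹)
      (fun j _ => by have := hd j; positivity) (mem_univ i))
  have hcomp : IsCompact Sp := Metric.isCompact_of_isClosed_isBounded hclosed hbdd
  have hnorm : ∀ g : I → ℝ, (∃ i, g i ≠ 0) →
      nf d (fun i => (√(nf d g))⁻¹ * g i) = 1 ∧
        qf B (fun i => (√(nf d g))⁻¹ * g i) = qf B g / nf d g := by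
    intro g hg
    have h1 := hpos g hg
    have h2 : (√(nf d g))⁻¹ ^ 2 = (nf d g)⁻¹ := by
      rw [inv_pow, Real.sq_sqrt h1.le]
    constructor
    · rw [nf_smul, h2, inv_mul_cancel₀ h1.ne']
    · rw [qf_smul, h2]
      field_simp
  obtain ⟨g₁, hg₁, hmax⟩ := hcomp.exists_isMaxOn ⟨_, (hnorm g₀ hg₀).1⟩ hcq.continuousOn
  set μ := qf B g₁ with hμ
  have hle : ∀ g : I → ℝ, qf B g ≤ μ * nf d g := by
    intro g
    by_cases hg : ∃ i, g i ≠ 0
    · have h1 := hmax (hnorm g hg).1
      rw [Set.mem_ofPred_eq, (hnorm g hg).2, div_le_iff₀ (hpos g hg)] at h1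
      exact h1
    · push Not at hg
      have h1 : qf B g = 0 := by
        unfold qf
        exact sum_eq_zero fun i _ => sum_eq_zero fun j _ => by rw [hg i]; ring
      have h2 : nf d g = 0 := by
        unfold nf
        exact sum_eq_zero fun i _ => by rw [hg i]; ring
      rw [h1, h2, mul_zero]
  set h : I → ℝ := fun i => |g₁ i| with hh
  have hn : nf d h = 1 := by
    rw [← (show nf d g₁ = 1 from hg₁)]
    unfold nf
    exact sum_congr rfl fun i _ => by rw [hh, sq_abs]
  have hq : qf B h = μ := by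
    apply le_antisymm
    · have := hle h
      rwa [hn, mul_one] at this
    · rw [hμ]
      unfold qf
      refine sum_le_sum fun i _ => sum_le_sum fun j _ => ?_
      have h1 : g₁ i * g₁ j ≤ |g₁ i| * |g₁ j| := by
        rw [← abs_mul]; exact le_abs_self _
      calc B i j * g₁ i * g₁ j = B i j * (g₁ i * g₁ j) := by ring
        _ ≤ B i j * (|g₁ i| * |g₁ j|) := mul_le_mul_of_nonneg_left h1 (hB i j)
        _ = _ := by ring
  refine ⟨h, μ, fun i => abs_nonneg _, ?_, ?_, hle g₀⟩
  · by_contra hc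
    push Not at hc
    have : nf d h = 0 := by
      unfold nf
      exact sum_eq_zero fun i _ => by rw [hc i]; ring
    rw [this] at hn
    exact zero_ne_one hn
  · intro k
    have h1 : ∑ j, B k j * h j - μ * (d k * h k) = 0 := by
      apply lin_zero (b := B k k - μ * d k)
      intro ε
      have h2 := hle (fun i => h i + if i = k then ε else 0)
      rw [qf_add_single B hs, nf_add_single, hq, hn] at h2
      linarith
    linarith

end Pool.Agent.FPB
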