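import Pool.Agent.Lib_helper21.FPB.Kernel
import Pool.Agent.Lib_helper21.FPB.Perron

/-!
# A nonnegative vector `h` with `M h ≥ μ h`, supported on small sets
-/

set_option autoImplicit false

namespace Pool.Agent.FPB

open Finset

variable {ι : Type} [Fintype ι] [DecidableEq ι]

/-- the symmetric matrix -/
noncomputable def BB (w : ι → ℝ) (S S' : Finset ι) : ℝ :=
  ∑ p, w p * ((if p ∈ S ∧ S' = S.erase p then (3 : ℝ) ^ S.card else 0) +
    (if p ∉ S ∧ S' = insert p S then (3 : ℝ) ^ (S.card + 1) else 0) +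
    (if p ∈ S ∧ S' = S then 2 * (3 : ℝ) ^ S.card else 0))

theorem BB_nonneg {w : ι → ℝ} (hw : ∀ p, 0 ≤ w p) (S S' : Finset ι) : 0 ≤ BB w S S' := by
  unfold BB
  refine sum_nonneg fun p _ => mul_nonneg (hw p) ?_
  refine add_nonneg (add_nonneg ?_ ?_) ?_ <;> split_ifs <;> positivity

theorem BB_symm (w : ι → ℝ) (S S' : Finset ι) : BB w S S' = BB w S' S := by
  unfold BB
  refine sum_congr rfl fun p _ => ?_
  congr 1
  have h1 : ∀ A B : Finset ι, (p ∈ A ∧ B = A.erase p) ↔ (p ∉ B ∧ A = insert p B) := by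
    intro A B
    constructor
    · rintro ⟨h1, rfl⟩
      exact ⟨notMem_erase p A, (insert_erase h1).symm⟩
    · rintro ⟨h1, rfl⟩
      exact ⟨mem_insert_self p B, (erase_insert h1).symm⟩
  have e1 : (if p ∈ S ∧ S' = S.erase p then (3 : ℝ) ^ S.card else 0) =
      (if p ∉ S' ∧ S = insert p S' then (3 : ℝ) ^ (S'.card + 1) else 0) := by
    by_cases h : p ∉ S' ∧ S = insert p S'
    · rw [if_pos h, if_pos ((h1 S S').2 h), h.2, card_insert_of_notMem h.1]
    · rw [if_neg h, if_neg (fun h' => h ((h1 S S').1 h'))]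
  have e2 : (if p ∉ S ∧ S' = insert p S then (3 : ℝ) ^ (S.card + 1) else 0) =
      (if p ∈ S' ∧ S = S'.erase p then (3 : ℝ) ^ S'.card else 0) := by
    by_cases h : p ∉ S ∧ S' = insert p S
    · rw [if_pos h, if_pos ((h1 S' S).2 h), h.2, card_insert_of_notMem h.1]
    · rw [if_neg h, if_neg (fun h' => h ((h1 S' S).1 h'))]
  have e3 : (if p ∈ S ∧ S' = S then 2 * (3 : ℝ) ^ S.card else 0) =
      (if p ∈ S' ∧ S = S' then 2 * (3 : ℝ) ^ S'.card else 0) := by
    by_cases h : S = S'
    · subst h; rfl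
    · rw [if_neg (fun h' => h h'.2.symm), if_neg (fun h' => h h'.2)]
  rw [e1, e2, e3]
  ring

theorem BB_sum (w : ι → ℝ) (h : Finset ι → ℝ) (S : Finset ι) :
    ∑ S', BB w S S' * h S' = 3 ^ S.card * MM w h S := by
  unfold BB MM
  have h1 : ∀ S' : Finset ι, (∑ p, w p * ((if p ∈ S ∧ S' = S.erase p then (3 : ℝ) ^ S.card else 0) +
      (if p ∉ S ∧ S' = insert p S then (3 : ℝ) ^ (S.card + 1) else 0) +
      (if p ∈ S ∧ S' = S then 2 * (3 : ℝ) ^ S.card else 0))) * h S' =
      ∑ p, ((if S' = S.erase p then (if p ∈ S then w p * 3 ^ S.card * h (S.erase p) else 0) else 0) +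
        (if S' = insert p S then (if p ∈ Sᶜ then w p * 3 ^ (S.card + 1) * h (insert p S) else 0)
          else 0) +
        (if S' = S then (if p ∈ S then w p * (2 * 3 ^ S.card) * h S else 0) else 0)) := by
    intro S'
    rw [sum_mul]
    refine sum_congr rfl fun p _ => ?_
    have a1 : (if p ∈ S ∧ S' = S.erase p then (3 : ℝ) ^ S.card else 0) * (w p * h S') =
        (if S' = S.erase p then (if p ∈ S then w p * 3 ^ S.card * h (S.erase p) else 0) else 0) := by
      by_cases h1 : S' = S.erase p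
      · by_cases h2 : p ∈ S
        · rw [if_pos ⟨h2, h1⟩, if_pos h1, if_pos h2, h1]; ring
        · rw [if_neg (fun h => h2 h.1), if_pos h1, if_neg h2]; ring
      · rw [if_neg (fun h => h1 h.2), if_neg h1]; ring
    have a2 : (if p ∉ S ∧ S' = insert p S then (3 : ℝ) ^ (S.card + 1) else 0) * (w p * h S') =
        (if S' = insert p S then (if p ∈ Sᶜ then w p * 3 ^ (S.card + 1) * h (insert p S) else 0)
          else 0) := by
      by_cases h1 : S' = insert p S
      · by_cases h2 : p ∈ S
        · rw [if_neg (fun h => h.1 h2), if_pos h1, if_neg (by simpa using h2)]; ring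
        · rw [if_pos ⟨h2, h1⟩, if_pos h1, if_pos (by simpa using h2), h1]; ring
      · rw [if_neg (fun h => h1 h.2), if_neg h1]; ring
    have a3 : (if p ∈ S ∧ S' = S then 2 * (3 : ℝ) ^ S.card else 0) * (w p * h S') =
        (if S' = S then (if p ∈ S then w p * (2 * 3 ^ S.card) * h S else 0) else 0) := by
      by_cases h1 : S' = S
      · by_cases h2 : p ∈ S
        · rw [if_pos ⟨h2, h1⟩, if_pos h1, if_pos h2, h1]; ring
        · rw [if_neg (fun h => h2 h.1), if_pos h1, if_neg h2]; ring
      · rw [if_neg (fun h => h1 h.2), if_neg h1]; ring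
    rw [← a1, ← a2, ← a3]
    ring
  rw [sum_congr rfl fun S' _ => h1 S', sum_comm]
  simp only [sum_add_distrib, sum_ite_eq', mem_univ, if_true]
  rw [mul_add, mul_add, mul_sum (s := S) (f := fun p => w p * h (S.erase p)),
    mul_sum (s := Sᶜ) (f := fun p => w p * h (insert p S)), mul_sum (s := S) (f := w)]
  have b1 : ∑ p, (if p ∈ S then w p * 3 ^ S.card * h (S.erase p) else 0) =
      ∑ p ∈ S, 3 ^ S.card * (w p * h (S.erase p)) := by
    rw [← sum_filter]
    simp only [filter_mem_eq_inter, univ_inter]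
    exact sum_congr rfl fun p _ => by ring
  have b2 : ∑ p, (if p ∈ Sᶜ then w p * 3 ^ (S.card + 1) * h (insert p S) else 0) =
      3 ^ S.card * ∑ p ∈ Sᶜ, 3 * (w p * h (insert p S)) := by
    rw [← sum_filter, mul_sum]
    simp only [filter_mem_eq_inter, univ_inter]
    exact sum_congr rfl fun p _ => by ring
  have b3 : ∑ p, (if p ∈ S then w p * (2 * 3 ^ S.card) * h S else 0) =
      3 ^ S.card * ((∑ p ∈ S, 2 * w p) * h S) := by
    rw [← sum_filter, sum_mul, mul_sum]
    simp only [filter_mem_eq_inter, univ_inter]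
    exact sum_congr rfl fun p _ => by ring
  rw [b1, b2, b3]

/-- averages over all sets of a given size -/
theorem sum_symm (w : ι → ℝ) (f : ℕ → ℝ) :
    (Fintype.card ι : ℝ) * ∑ S : Finset ι, f S.card * ∑ p ∈ S, w p =
      (∑ p, w p) * ∑ S : Finset ι, f S.card * S.card := by
  set A : ι → ℝ := fun p => ∑ S : Finset ι, if p ∈ S then f S.card else 0 with hA
  have h1 : ∀ v : ι → ℝ, ∑ S : Finset ι, f S.card * ∑ p ∈ S, v p = ∑ p, v p * A p := by
    intro v
    have : ∀ S : Finset ι, f S.card * ∑ p ∈ S, v p = ∑ p, v p * (if p ∈ S then f S.card else 0) := by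
      intro S
      rw [mul_sum, ← sum_filter_add_sum_filter_not univ (fun p => p ∈ S)
        (fun p => v p * (if p ∈ S then f S.card else 0))]
      rw [sum_eq_zero (s := univ.filter fun p => p ∉ S) (fun p hp => by
        rw [mem_filter] at hp
        rw [if_neg hp.2, mul_zero]), add_zero]
      simp only [filter_mem_eq_inter, univ_inter]
      exact sum_congr rfl fun p hp => by rw [if_pos hp]; ring
    rw [sum_congr rfl fun S _ => this S, sum_comm]
    exact sum_congr rfl fun p _ => (mul_sum _ _ _).symm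
  have h2 : ∀ p q : ι, A p = A q := by
    intro p q
    rw [hA]
    simp only
    rw [← Equiv.sum_comp (Equiv.swap p q).finsetCongr
      (fun S => if p ∈ S then f S.card else 0)]
    refine sum_congr rfl fun S _ => ?_
    rw [Equiv.finsetCongr_apply, card_map]
    congr 1
    rw [mem_map_equiv, Equiv.symm_swap, Equiv.swap_apply_left]
  have h3 : ∑ S : Finset ι, f S.card * S.card = ∑ p, A p := by
    have := h1 (fun _ => 1)
    simp only [sum_const, nsmul_eq_mul, mul_one, one_mul] at this
    exact this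
  rw [h1, h3]
  by_cases hne : Nonempty ι
  · obtain ⟨q⟩ := hne
    have h4 : ∀ p, A p = A q := fun p => h2 p q
    rw [sum_congr rfl fun p _ => by rw [h4 p], ← sum_mul, sum_congr rfl fun p _ => h4 p, sum_const,
      nsmul_eq_mul, card_univ]
    ring
  · rw [not_nonempty_iff] at hne
    simp

omit [DecidableEq ι] in
/-- sums over a subtype -/
theorem sum_ext_zero {k : ℕ} (g : {S : Finset ι // S.card ≤ k} → ℝ) (F : Finset ι → ℝ) :
    ∑ S : {S : Finset ι // S.card ≤ k}, F S.1 * g S =
      ∑ S : Finset ι, F S * (if hS : S.card ≤ k then g ⟨S, hS⟩ else 0) := by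
  classical
  have h1 : ∑ S : Finset ι, F S * (if hS : S.card ≤ k then g ⟨S, hS⟩ else 0) =
      ∑ S ∈ (univ : Finset (Finset ι)).filter (fun S => S.card ≤ k),
        F S * (if hS : S.card ≤ k then g ⟨S, hS⟩ else 0) := by
    rw [sum_filter]
    refine sum_congr rfl fun S _ => ?_
    split_ifs with h
    · rfl
    · rw [mul_zero]
  rw [h1]
  rw [← sum_subtype_eq_sum_filter (s := (univ : Finset (Finset ι)))
    (f := fun S => F S * (if hS : S.card ≤ k then g ⟨S, hS⟩ else 0)) (p := fun S => S.card ≤ k)]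
  refine sum_congr ?_ fun S _ => ?_
  · ext S
    simp
  · rw [dif_pos S.2]

/-- from an eigenvector of the symmetric matrix to a vector for the operator -/
theorem exists_eigen (w : ι → ℝ) (hw : ∀ p, 0 ≤ w p) (k : ℕ) (a : ℕ → ℝ)
    (ha : ∀ j, k < j → a j = 0) (hne : ∃ j, j ≤ k ∧ j ≤ Fintype.card ι ∧ a j ≠ 0) :
    ∃ (h : Finset ι → ℝ) (μ : ℝ), (∀ S, 0 ≤ h S) ∧ (∀ S, k < S.card → h S = 0) ∧
      (∃ S, h S ≠ 0) ∧ (∀ S, μ * h S ≤ MM w h S) ∧
      ∑ S : Finset ι, a S.card * (3 ^ S.card * MM w (fun S => a S.card) S) ≤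
        μ * ∑ S : Finset ι, 3 ^ S.card * a S.card ^ 2 := by
  classical
  set B : {S : Finset ι // S.card ≤ k} → {S : Finset ι // S.card ≤ k} → ℝ :=
    fun S S' => BB w S.1 S'.1 with hB
  obtain ⟨j, hj1, hj2, hj3⟩ := hne
  obtain ⟨S₀, -, hS₀⟩ := exists_subset_card_eq (s := (univ : Finset ι)) (n := j)
    (by rw [card_univ]; exact hj2)
  obtain ⟨h', μ, h1, h2, h3, h4⟩ := perron B (fun i j => BB_symm w _ _)
    (fun i j => BB_nonneg hw _ _) (fun S => (3 : ℝ) ^ S.1.card) (fun S => by positivity)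
    (fun S => a S.1.card) ⟨⟨S₀, by rw [hS₀]; exact hj1⟩, by simpa [hS₀] using hj3⟩
  set h : Finset ι → ℝ := fun S => if hS : S.card ≤ k then h' ⟨S, hS⟩ else 0 with hh
  have hpos : ∀ S, 0 ≤ h S := by
    intro S
    rw [hh]
    simp only
    split_ifs
    · exact h1 _
    · exact le_refl _
  refine ⟨h, μ, hpos, ?_, ?_, ?_, ?_⟩
  · intro S hS
    rw [hh]
    simp only
    rw [dif_neg (not_le.2 hS)]
  · obtain ⟨i, hi⟩ := h2
    refine ⟨i.1, ?_⟩
    rw [hh]
    simp only
    rw [dif_pos i.2]
    exact hi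
  · intro S
    by_cases hS : S.card ≤ k
    · have e1 := h3 ⟨S, hS⟩
      rw [hB] at e1
      simp only at e1
      rw [sum_ext_zero h' (fun S' => BB w S S')] at e1
      have e2 := BB_sum w h S
      have e3 : ∑ S', BB w S S' * h S' = μ * (3 ^ S.card * h' ⟨S, hS⟩) := e1
      rw [e2] at e3
      have e4 : h S = h' ⟨S, hS⟩ := by rw [hh]; simp only; rw [dif_pos hS]
      rw [e4]
      have e5 : (0 : ℝ) < 3 ^ S.card := by positivity
      have e6 : (3 : ℝ) ^ S.card * MM w h S = 3 ^ S.card * (μ * h' ⟨S, hS⟩) := by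
        rw [e3]; ring
      exact (mul_left_cancel₀ e5.ne' e6).ge
    · have e4 : h S = 0 := by rw [hh]; simp only; rw [dif_neg hS]
      rw [e4, mul_zero]
      unfold MM
      rw [e4, mul_zero, add_zero]
      exact add_nonneg (sum_nonneg fun p _ => mul_nonneg (hw p) (hpos _))
        (mul_nonneg (by norm_num) (sum_nonneg fun p _ => mul_nonneg (hw p) (hpos _)))
  · -- the test vector
    have ea : ∀ S : Finset ι, (if hS : S.card ≤ k then a S.card else 0) = a S.card := by
      intro S
      split_ifs with hS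
      · rfl
      · rw [ha _ (not_le.1 hS)]
    have e1 : qf B (fun S => a S.1.card) =
        ∑ S : Finset ι, a S.card * (3 ^ S.card * MM w (fun S => a S.card) S) := by
      unfold qf
      have e2 : ∀ S : {S : Finset ι // S.card ≤ k}, ∑ S', B S S' * a S.1.card * a S'.1.card =
          (3 ^ S.1.card * MM w (fun S => a S.card) S.1) * a S.1.card := by
        intro S
        have e3 : ∀ S' : {S : Finset ι // S.card ≤ k}, B S S' * a S.1.card * a S'.1.card =
            (BB w S.1 S'.1 * a S.1.card) * a S'.1.card := fun S' => rfl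
        rw [sum_congr rfl fun S' _ => e3 S',
          sum_ext_zero (fun S' => a S'.1.card) (fun S' => BB w S.1 S' * a S.1.card)]
        simp only [ea]
        rw [← BB_sum w (fun S => a S.card) S.1, sum_mul]
        exact sum_congr rfl fun S' _ => by ring
      rw [sum_congr rfl fun S _ => e2 S, sum_ext_zero (fun S => a S.1.card)
        (fun S => 3 ^ S.card * MM w (fun S => a S.card) S)]
      simp only [ea]
      exact sum_congr rfl fun S _ => by ring
    have e5 : nf (fun S : {S : Finset ι // S.card ≤ k} => (3 : ℝ) ^ S.1.card)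
        (fun S => a S.1.card) = ∑ S : Finset ι, 3 ^ S.card * a S.card ^ 2 := by
      unfold nf
      have e6 : ∀ S : {S : Finset ι // S.card ≤ k}, (3 : ℝ) ^ S.1.card * a S.1.card ^ 2 =
          (3 ^ S.1.card * a S.1.card) * a S.1.card := fun S => by ring
      rw [sum_congr rfl fun S _ => e6 S, sum_ext_zero (fun S => a S.1.card)
        (fun S => 3 ^ S.card * a S.card)]
      simp only [ea]
      exact sum_congr rfl fun S _ => by ring
    rw [e1, e5] at h4
    exact h4

/-- the operator on functions of the size -/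
theorem MM_card (w : ι → ℝ) (a : ℕ → ℝ) (S : Finset ι) :
    MM w (fun S => a S.card) S = (∑ p ∈ S, w p) * (a (S.card - 1) + 2 * a S.card) +
      3 * (∑ p, w p - ∑ p ∈ S, w p) * a (S.card + 1) := by
  unfold MM
  have e1 : ∑ p ∈ S, w p * a (S.erase p).card = (∑ p ∈ S, w p) * a (S.card - 1) := by
    rw [sum_mul]
    exact sum_congr rfl fun p hp => by rw [card_erase_of_mem hp]
  have e2 : ∑ p ∈ Sᶜ, w p * a (insert p S).card = (∑ p ∈ Sᶜ, w p) * a (S.card + 1) := by
    rw [sum_mul]
    exact sum_congr rfl fun p hp => by rw [card_insert_of_notMem (by simpa using hp)]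
  have e3 : ∑ p ∈ Sᶜ, w p = ∑ p, w p - ∑ p ∈ S, w p := by
    rw [← sum_add_sum_compl S w]; ring
  rw [e1, e2, e3]
  ring

/-- the quadratic form of the test vector -/
theorem test_form (w : ι → ℝ) (a : ℕ → ℝ) :
    (Fintype.card ι : ℝ) *
      ∑ S : Finset ι, a S.card * (3 ^ S.card * MM w (fun S => a S.card) S) =
    (∑ p, w p) * ∑ j ∈ range (Fintype.card ι + 1), ((Fintype.card ι).choose j : ℝ) *
      (3 ^ j * a j * (a (j - 1) + 2 * a j) * j + 3 * (3 ^ j * a j * a (j + 1)) *
        (Fintype.card ι - j)) := by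
  set n := Fintype.card ι with hn
  set W := ∑ p, w p with hW
  have h1 : ∀ S : Finset ι, a S.card * (3 ^ S.card * MM w (fun S => a S.card) S) =
      (3 ^ S.card * a S.card * (a (S.card - 1) + 2 * a S.card)) * (∑ p ∈ S, w p) +
        (W * (3 * (3 ^ S.card * a S.card * a (S.card + 1))) -
          (3 * (3 ^ S.card * a S.card * a (S.card + 1))) * (∑ p ∈ S, w p)) := by
    intro S
    rw [MM_card]
    ring
  rw [sum_congr rfl fun S _ => h1 S, sum_add_distrib, sum_sub_distrib, ← mul_sum, mul_add,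
    mul_sub, sum_symm w (fun j => 3 ^ j * a j * (a (j - 1) + 2 * a j)),
    sum_symm w (fun j => 3 * (3 ^ j * a j * a (j + 1))), ← hW]
  have h2 : ∀ f : ℕ → ℝ, ∑ S : Finset ι, f S.card =
      ∑ j ∈ range (n + 1), (n.choose j : ℝ) * f j := by
    intro f
    have := sum_powerset_apply_card f (x := (univ : Finset ι))
    rw [powerset_univ, card_univ, ← hn] at this
    rw [this]
    exact sum_congr rfl fun j _ => by rw [nsmul_eq_mul]
  rw [h2 (fun j => 3 ^ j * a j * (a (j - 1) + 2 * a j) * j),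
    h2 (fun j => 3 * (3 ^ j * a j * a (j + 1)) * j),
    h2 (fun j => 3 * (3 ^ j * a j * a (j + 1)))]
  rw [mul_left_comm (n : ℝ) W, ← mul_sub, ← mul_add, mul_sum (range (n + 1)) _ (n : ℝ),
    ← sum_sub_distrib, ← sum_add_distrib]
  congr 1
  exact sum_congr rfl fun j _ => by ring

end Pool.Agent.FPB
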