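import Pool.Agent.Lib_helper21.FPB.Test
import Pool.Agent.Lib_helper21.FP.Count

/-!
# Coprime solutions of `x ^ 4 - y ^ 4 = r` and codes over four letters (MP_7dc427_nt)
-/

set_option autoImplicit false

namespace Pool.Agent.FPB

open Finset Pool.Agent.FP

/-- the number of coordinates which are added -/
def PAD : ℕ := 1000 * (100000000 + 1)

theorem sum_elim_zero {β γ : Type} [Fintype β] [Fintype γ] (F : β ⊕ γ → ℝ)
    (h : ∀ g, F (Sum.inr g) = 0) : ∑ p, F p = ∑ b, F (Sum.inl b) := by
  rw [Fintype.sum_sum_type, sum_eq_zero (fun g _ => h g), add_zero]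

theorem code_main {α : Type} {β : Type} [Fintype β] [DecidableEq β] (c : β → α → Fin 4)
    (Q : α → α → ℝ) (hQ : PDk Q) (w : β → ℝ) (hw : ∀ p, 0 ≤ w p) {lam D : ℝ} (C : Finset α)
    (hoff : ∀ x ∈ C, ∀ y ∈ C, x ≠ y → ∑ p, w p * tt (c p) x y + Q x y ≤ lam)
    (hdiag : ∀ x ∈ C, ∑ p, w p * tt (c p) x x + Q x x ≤ D) (hlD : lam ≤ D)
    (hlm : lam < 1.00005 * ∑ p, w p) :
    (C.card : ℝ) * (1.00005 * ∑ p, w p - lam) ≤
      (D - lam) * (1.3764 : ℝ) ^ (Fintype.card β + PAD) := by
  classical
  set n := Fintype.card β with hn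
  set N := n / 1000 + 100000000 + 1 with hN
  have hnN : n ≤ 1000 * N := by omega
  have hNn : 1000 * N ≤ n + PAD := by unfold PAD; omega
  set d := 1000 * N - n with hd
  have hcard : Fintype.card (β ⊕ Fin d) = 1000 * N := by
    rw [Fintype.card_sum, Fintype.card_fin, ← hn]; omega
  set c' : β ⊕ Fin d → α → Fin 4 := fun p x => Sum.elim (fun q => c q x) (fun _ => 0) p with hc'
  set w' : β ⊕ Fin d → ℝ := Sum.elim w (fun _ => 0) with hw'
  have hw0 : ∀ p, 0 ≤ w' p := by
    rintro (p | p)
    · exact hw p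
    · exact le_refl _
  have hsum : ∑ p, w' p = ∑ p, w p := sum_elim_zero _ fun _ => rfl
  have hker : ∀ x y, ∑ p, w' p * tt (c' p) x y = ∑ p, w p * tt (c p) x y := by
    intro x y
    rw [sum_elim_zero _ (fun g => by show (0 : ℝ) * _ = 0; rw [zero_mul])]
    rfl
  have hN8 : 100000000 ≤ N := by
    rw [hN, add_assoc]
    exact (Nat.le_add_right 100000000 1).trans (Nat.le_add_left _ _)
  obtain ⟨h, μ, h1, h2, h3, h4, h5⟩ := exists_sub w' hw0 (N := N) hN8 hcard
  rw [hsum] at h5
  have h6 := code_bound c' Q hQ w' h h1 h2 h3 h4 C (lam := lam) (D := D)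
    (fun x hx y hy hxy => by rw [hker]; exact hoff x hx y hy hxy)
    (fun x hx => by rw [hker]; exact hdiag x hx) hlD (lt_of_lt_of_le hlm h5)
  calc (C.card : ℝ) * (1.00005 * ∑ p, w p - lam) ≤ C.card * (μ - lam) :=
        mul_le_mul_of_nonneg_left (by linarith) (Nat.cast_nonneg _)
    _ ≤ (D - lam) * _ := h6
    _ ≤ (D - lam) * (1.3764 : ℝ) ^ (1000 * N) :=
        mul_le_mul_of_nonneg_left (volume_bound hcard) (by linarith)
    _ ≤ (D - lam) * (1.3764 : ℝ) ^ (n + PAD) :=
        mul_le_mul_of_nonneg_left (pow_le_pow_right₀ (by norm_num) hNn) (by linarith)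

/-- the letters -/
theorem exists_letters : ∃ e : ℕ → ℕ → Fin 4, ∀ p : ℕ, p.Prime → ∀ a ∈ RR p, ∀ b ∈ RR p,
    e p a = e p b → a = b := by
  have h : ∀ p : ℕ, ∃ e : ℕ → Fin 4, p.Prime → ∀ a ∈ RR p, ∀ b ∈ RR p, e a = e b → a = b := by
    intro p
    by_cases hp : p.Prime
    · have hc : Fintype.card {x // x ∈ RR p} ≤ Fintype.card (Fin 4) := by
        rw [Fintype.card_coe, Fintype.card_fin]
        exact card_RR hp
      obtain ⟨f⟩ := Function.Embedding.nonempty_of_card_le hc
      refine ⟨fun a => if h : a ∈ RR p then f ⟨a, h⟩ else 0, fun _ a ha b hb hab => ?_⟩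
      have hab : (if h : a ∈ RR p then f ⟨a, h⟩ else 0) = (if h : b ∈ RR p then f ⟨b, h⟩ else 0) :=
        hab
      rw [dif_pos ha, dif_pos hb] at hab
      exact congrArg Subtype.val (f.injective hab)
    · exact ⟨fun _ => 0, fun h => absurd h hp⟩
  choose e he using h
  exact ⟨e, he⟩

theorem card_RR_other {p : ℕ} (hp : p.Prime) (h1 : p % 4 ≠ 1) : (RR p).card ≤ 2 := by
  by_cases h2 : p = 2
  · subst h2; decide
  · have hodd : p % 2 = 1 := by
      rcases hp.eq_two_or_odd with h | h
      · exact absurd h h2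
      · exact h
    exact card_RR_three hp (by omega)

/-- the signs -/
theorem exists_signs : ∃ σ : ℕ → ℕ → ℝ, ∀ p : ℕ, p.Prime → p % 4 ≠ 1 → ∀ a ∈ RR p, ∀ b ∈ RR p,
    σ p a * σ p b = if a = b then 1 else -1 := by
  have h : ∀ p : ℕ, ∃ σ : ℕ → ℝ, p.Prime → p % 4 ≠ 1 → ∀ a ∈ RR p, ∀ b ∈ RR p,
      σ a * σ b = if a = b then 1 else -1 := by
    intro p
    by_cases hp : p.Prime ∧ p % 4 ≠ 1 ∧ (RR p).Nonempty
    · obtain ⟨hp1, hp2, m, hm⟩ := hp
      refine ⟨fun a => if a = m then 1 else -1, fun _ _ a ha b hb => ?_⟩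
      by_cases hab : a = b
      · subst hab
        rw [if_pos rfl]
        by_cases ham : a = m
        · simp only [if_pos ham]
          norm_num
        · simp only [if_neg ham]
          norm_num
      · rw [if_neg hab]
        by_cases ham : a = m
        · have : b ≠ m := fun h => hab (ham.trans h.symm)
          simp only [if_pos ham, if_neg this]
          norm_num
        · by_cases hbm : b = m
          · simp only [if_pos hbm, if_neg ham]
            norm_num
          · exfalso
            have h3 : ({a, b, m} : Finset ℕ).card ≤ (RR p).card := by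
              apply card_le_card
              intro x hx
              simp only [mem_insert, mem_singleton] at hx
              rcases hx with rfl | rfl | rfl
              · exact ha
              · exact hb
              · exact hm
            rw [card_eq_three.2 ⟨a, b, m, hab, ham, hbm, rfl⟩] at h3
            have := card_RR_other hp1 hp2
            omega
    · refine ⟨fun _ => 1, fun h1 h2 a ha => ?_⟩
      exact absurd ⟨h1, h2, a, ha⟩ hp
  choose σ hσ using h
  exact ⟨σ, hσ⟩

/-- the primes `1 mod 4` -/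
def P1 (r : ℕ) : Finset ℕ := r.primeFactors.filter (fun p => p % 4 = 1)

theorem jv_cop {P : ℕ × ℕ} (h : Nat.Coprime P.1 P.2) (p : ℕ) : jv p P = 0 := by
  unfold jv
  rw [h]
  simp

/-- the primes `1 mod 4` have more than half of the weight -/
theorem weight_one {r : ℕ} (hr : 0 < r) {P : ℕ × ℕ} (hP : IsSol r P)
    (hcop : Nat.Coprime P.1 P.2) :
    Real.log r / 2 - Real.log 2 ≤ ∑ p ∈ P1 r, (r.factorization p : ℝ) * Real.log p := by
  obtain ⟨hx, hy, h⟩ := hP
  obtain ⟨x, y⟩ := P
  simp only at hx hy h hcop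
  set m := x ^ 2 + y ^ 2 with hm
  have hm0 : 0 < m := by positivity
  have hyx : y < x := by
    by_contra hc
    have : x ^ 4 ≤ y ^ 4 := Nat.pow_le_pow_left (not_lt.mp hc) 4
    omega
  have hfac : r = (x ^ 2 - y ^ 2) * m := by
    have h1 : y ^ 2 ≤ x ^ 2 := Nat.pow_le_pow_left hyx.le 2
    have h2 : ((r : ℕ) : ℤ) = (((x ^ 2 - y ^ 2) * m : ℕ) : ℤ) := by
      rw [hm]
      push_cast [Nat.cast_sub h1]
      have : (x : ℤ) ^ 4 = (y : ℤ) ^ 4 + r := by exact_mod_cast h
      linear_combination -this
    exact_mod_cast h2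
  have hmr : m ∣ r := ⟨_, by rw [hfac]; ring⟩
  -- size
  have hsz : Real.log r / 2 ≤ Real.log m := by
    have h1 : r ≤ m ^ 2 := by
      have h0 : x ^ 2 - y ^ 2 ≤ m := by
        rw [hm]
        exact (Nat.sub_le _ _).trans (Nat.le_add_right _ _)
      calc r = (x ^ 2 - y ^ 2) * m := hfac
        _ ≤ m * m := Nat.mul_le_mul_right _ h0
        _ = m ^ 2 := (pow_two m).symm
    have h2 : Real.log r ≤ Real.log ((m : ℝ) ^ 2) := by
      apply Real.log_le_log (by exact_mod_cast hr)
      exact_mod_cast h1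
    rw [Real.log_pow] at h2
    push_cast at h2
    linarith
  -- primes
  have hpr : ∀ p ∈ m.primeFactors, p = 2 ∨ p % 4 = 1 := by
    intro p hp
    have hp' := Nat.prime_of_mem_primeFactors hp
    have hpm := Nat.dvd_of_mem_primeFactors hp
    by_cases h2 : p = 2
    · exact Or.inl h2
    · right
      have : Fact p.Prime := ⟨hp'⟩
      have hy0 : (y : ZMod p) ≠ 0 := by
        intro h0
        rw [ZMod.natCast_eq_zero_iff] at h0
        have h1 : p ∣ x ^ 2 := by
          rw [hm] at hpm
          exact (Nat.dvd_add_left (h0.trans (dvd_pow_self y two_ne_zero))).1 hpm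
        have h2 := hp'.dvd_of_dvd_pow h1
        have h3 := Nat.dvd_gcd h2 h0
        rw [hcop] at h3
        exact hp'.one_lt.ne' (Nat.dvd_one.1 h3)
      have hs : (x : ZMod p) ^ 2 = -(y : ZMod p) ^ 2 := by
        have h1 : ((m : ℕ) : ZMod p) = 0 := (ZMod.natCast_eq_zero_iff _ _).2 hpm
        rw [hm] at h1
        push_cast at h1
        linear_combination h1
      have h3 := ZMod.mod_four_ne_three_of_sq_eq_neg_sq' hy0 hs
      have hodd : p % 2 = 1 := by
        rcases hp'.eq_two_or_odd with h | h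
        · exact absurd h h2
        · exact h
      omega
  have h4 : ¬ 4 ∣ m := by
    intro h4
    have hx2 : x % 2 = 1 ∨ y % 2 = 1 := by
      by_contra hc
      have h1 : 2 ∣ x := by omega
      have h2 : 2 ∣ y := by omega
      have h3 := Nat.dvd_gcd h1 h2
      rw [hcop] at h3
      omega
    have e1 : x ^ 2 % 4 = 0 ∧ x % 2 = 0 ∨ x ^ 2 % 4 = 1 ∧ x % 2 = 1 := by
      rcases Nat.even_or_odd' x with ⟨k, rfl | rfl⟩
      · left; constructor
        · ring_nf; omega
        · omega
      · right; constructor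
        · ring_nf; omega
        · omega
    have e2 : y ^ 2 % 4 = 0 ∧ y % 2 = 0 ∨ y ^ 2 % 4 = 1 ∧ y % 2 = 1 := by
      rcases Nat.even_or_odd' y with ⟨k, rfl | rfl⟩
      · left; constructor
        · ring_nf; omega
        · omega
      · right; constructor
        · ring_nf; omega
        · omega
    omega
  have hlog := log_eq_sum hm0.ne'
  have hsplit : Real.log m ≤ Real.log 2 + ∑ p ∈ P1 r, (r.factorization p : ℝ) * Real.log p := by
    rw [hlog, ← sum_filter_add_sum_filter_not m.primeFactors (fun p => p = 2)]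
    apply add_le_add
    · have h5 : ∀ p ∈ m.primeFactors.filter (fun p => p = 2),
          (m.factorization p : ℝ) * Real.log p ≤ Real.log 2 := by
        intro p hp
        rw [mem_filter] at hp
        obtain ⟨h6, rfl⟩ := hp
        have h7 : m.factorization 2 ≤ 1 := by
          by_contra hc
          apply h4
          have := (Nat.prime_two.pow_dvd_iff_le_factorization hm0.ne' (k := 2)).2 (by omega)
          simpa using this
        have h8 : ((m.factorization 2 : ℕ) : ℝ) ≤ 1 := by exact_mod_cast h7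
        have h9 : 0 ≤ Real.log 2 := Real.log_nonneg (by norm_num)
        calc ((m.factorization 2 : ℕ) : ℝ) * Real.log ((2 : ℕ) : ℝ) ≤ 1 * Real.log 2 := by
              push_cast
              exact mul_le_mul_of_nonneg_right h8 h9
          _ = Real.log 2 := one_mul _
      have h10 : (m.primeFactors.filter (fun p => p = 2)).card ≤ 1 := by
        rw [card_le_one]
        intro a ha b hb
        rw [mem_filter] at ha hb
        rw [ha.2, hb.2]
      have h9 : 0 ≤ Real.log 2 := Real.log_nonneg (by norm_num)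
      calc ∑ p ∈ m.primeFactors.filter (fun p => p = 2), (m.factorization p : ℝ) * Real.log p
          ≤ ∑ p ∈ m.primeFactors.filter (fun p => p = 2), Real.log 2 := sum_le_sum h5
        _ = (m.primeFactors.filter (fun p => p = 2)).card * Real.log 2 := by
            rw [sum_const, nsmul_eq_mul]
        _ ≤ 1 * Real.log 2 := mul_le_mul_of_nonneg_right (by exact_mod_cast h10) h9
        _ = Real.log 2 := one_mul _
    · have hsub : m.primeFactors.filter (fun p => ¬ p = 2) ⊆ P1 r := by
        intro p hp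
        rw [mem_filter] at hp
        unfold P1
        rw [mem_filter]
        refine ⟨Nat.mem_primeFactors.2 ⟨Nat.prime_of_mem_primeFactors hp.1,
          (Nat.dvd_of_mem_primeFactors hp.1).trans hmr, hr.ne'⟩, ?_⟩
        rcases hpr p hp.1 with h | h
        · exact absurd h hp.2
        · exact h
      calc ∑ p ∈ m.primeFactors.filter (fun p => ¬ p = 2), (m.factorization p : ℝ) * Real.log p
          ≤ ∑ p ∈ m.primeFactors.filter (fun p => ¬ p = 2),
            (r.factorization p : ℝ) * Real.log p := by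
            refine sum_le_sum fun p _ => ?_
            apply mul_le_mul_of_nonneg_right _ (Real.log_natCast_nonneg p)
            have := (Nat.factorization_le_iff_dvd hm0.ne' hr.ne').2 hmr p
            exact_mod_cast this
        _ ≤ _ := sum_le_sum_of_subset_of_nonneg hsub fun p _ _ =>
            mul_nonneg (Nat.cast_nonneg _) (Real.log_natCast_nonneg p)
  linarith

/-- one class of solutions -/
theorem one_class {r : ℕ} (hr : 0 < r) (C : Finset (ℕ × ℕ)) (hC : ∀ P ∈ C, IsSol r P)
    (hcop : ∀ P ∈ C, Nat.Coprime P.1 P.2)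
    (hbig : 6000000 ≤ Real.log r)
    (hw : ∀ P ∈ C, ∀ Q ∈ C, ((Q.1 : ℝ) + Q.2) ≤
      ((P.1 : ℝ) + P.2) * Real.exp (Real.log r / 1000000)) :
    (C.card : ℝ) ≤ 150000 * (1.3764 : ℝ) ^ ((P1 r).card + PAD) := by
  classical
  rcases C.eq_empty_or_nonempty with hemp | ⟨P₀, hP₀⟩
  · rw [hemp, card_empty]
    push_cast
    positivity
  obtain ⟨e, he⟩ := exists_letters
  obtain ⟨σ, hσ⟩ := exists_signs
  set L := Real.log r with hL
  set θ := L / 1000000 with hθ
  set wt : ℕ → ℝ := fun p => (r.factorization p : ℝ) * Real.log p with hwt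
  have hwt0 : ∀ p, 0 ≤ wt p := fun p => mul_nonneg (Nat.cast_nonneg _) (Real.log_natCast_nonneg p)
  set P3 : Finset ℕ := r.primeFactors.filter (fun p => ¬ p % 4 = 1) with hP3
  set W1 := ∑ p ∈ P1 r, wt p with hW1
  set W3 := ∑ p ∈ P3, wt p with hW3
  have hLW : L = W1 + W3 := by
    rw [hL, log_eq_sum hr.ne', hW1, hW3]
    unfold P1
    rw [sum_filter_add_sum_filter_not]
  have hW3' : 0 ≤ W3 := sum_nonneg fun p _ => hwt0 p
  have hW1' : L / 2 - Real.log 2 ≤ W1 := weight_one hr (hC P₀ hP₀) (hcop P₀ hP₀)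
  set β := {p : ℕ // p ∈ P1 r} with hβ
  set c : β → ℕ × ℕ → Fin 4 := fun p P => e p.1 (col p.1 P) with hc
  set Q : ℕ × ℕ → ℕ × ℕ → ℝ := fun P P' =>
    ∑ q ∈ P3, 2 * wt q * (σ q (col q P) * σ q (col q P')) with hQd
  have hQ : PDk Q := by
    apply PDk.sum P3 (fun q P P' => 2 * wt q * (σ q (col q P) * σ q (col q P')))
    intro q _
    exact (PDk.sign (fun P : ℕ × ℕ => σ q (col q P))).smul (by have := hwt0 q; positivity)
  have hmem : ∀ p ∈ r.primeFactors, ∀ P ∈ C, col p P ∈ RR p := by
    intro p hp P hP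
    have hp' := Nat.prime_of_mem_primeFactors hp
    apply col_mem hr hp' (hC P hP)
    rw [jv_cop (hcop P hP), mul_zero]
    exact hp'.factorization_pos_of_dvd hr.ne' (Nat.dvd_of_mem_primeFactors hp)
  -- the kernel in terms of the agreement
  have hker : ∀ P ∈ C, ∀ P' ∈ C, ∑ p : β, wt p.1 * tt (c p) P P' + Q P P' =
      4 * (∑ p ∈ r.primeFactors, wt p * (if col p P = col p P' then 1 else 0)) - W1 - 2 * W3 := by
    intro P hP P' hP'
    have k1 : ∑ p : β, wt p.1 * tt (c p) P P' =
        ∑ p ∈ P1 r, (4 * (wt p * (if col p P = col p P' then 1 else 0)) - wt p) := by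
      rw [← sum_coe_sort (P1 r)
        (fun p => 4 * (wt p * (if col p P = col p P' then 1 else 0)) - wt p)]
      refine sum_congr rfl fun p _ => ?_
      have hp := p.2
      unfold P1 at hp
      rw [mem_filter] at hp
      have hp' := Nat.prime_of_mem_primeFactors hp.1
      unfold tt
      by_cases h : col p.1 P = col p.1 P'
      · have h' : c p P = c p P' := congrArg (e p.1) h
        rw [if_pos h', if_pos h]; ring
      · have h' : ¬ c p P = c p P' := fun h' => h (he _ hp' _ (hmem _ hp.1 P hP) _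
          (hmem _ hp.1 P' hP') h')
        rw [if_neg h, if_neg h']
        ring
    have k2 : Q P P' =
        ∑ p ∈ P3, (4 * (wt p * (if col p P = col p P' then 1 else 0)) - 2 * wt p) := by
      rw [hQd]
      refine sum_congr rfl fun p hp => ?_
      rw [hP3, mem_filter] at hp
      rw [hσ p (Nat.prime_of_mem_primeFactors hp.1) hp.2 _ (hmem _ hp.1 P hP) _
        (hmem _ hp.1 P' hP')]
      split_ifs <;> ring
    have k3 : ∑ p ∈ r.primeFactors, wt p * (if col p P = col p P' then 1 else 0) =
        ∑ p ∈ P1 r, wt p * (if col p P = col p P' then 1 else 0) +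
          ∑ p ∈ P3, wt p * (if col p P = col p P' then 1 else 0) := by
      unfold P1
      rw [hP3, sum_filter_add_sum_filter_not]
    rw [k1, k2, k3, sum_sub_distrib, sum_sub_distrib, ← mul_sum, ← mul_sum, ← mul_sum, hW1, hW3]
    ring
  have hK : ∀ P ∈ C, ∀ P' ∈ C, ∑ p ∈ r.primeFactors, wt p *
      (if col p P = col p P' then 1 else 0) =
      ∑ p ∈ r.primeFactors, (K p (r.factorization p) P P' : ℝ) * Real.log p := by
    intro P hP P' hP'
    refine sum_congr rfl fun p _ => ?_
    unfold K
    rw [jv_cop (hcop P hP), jv_cop (hcop P' hP')]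
    rw [hwt]
    split_ifs <;> simp
  have h := code_main c Q hQ (fun p : β => wt p.1) (fun p => hwt0 p.1) C
    (lam := W1 + 4 * Real.log 4 + 4 * θ) (D := 3 * L) ?_ ?_ ?_ ?_
  · have hcard : Fintype.card β = (P1 r).card := Fintype.card_coe _
    have hs : ∑ p : β, wt p.1 = W1 := by
      rw [hW1]; exact sum_coe_sort (P1 r) wt
    rw [hcard, hs] at h
    set V := (1.3764 : ℝ) ^ ((P1 r).card + PAD) with hV
    have hV0 : 0 < V := by positivity
    have hl2 : Real.log 2 < 0.7 := by have := Real.log_two_lt_d9; linarith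
    have hl4 : Real.log 4 < 1.4 := by
      have : Real.log 4 = 2 * Real.log 2 := by
        rw [show (4 : ℝ) = 2 ^ 2 by norm_num, Real.log_pow]; norm_num
      linarith
    have h20 : 0 ≤ Real.log 2 := Real.log_nonneg (by norm_num)
    have h40 : 0 ≤ Real.log 4 := Real.log_nonneg (by norm_num)
    have h5 : 0.00002 * L ≤ 1.00005 * W1 - (W1 + 4 * Real.log 4 + 4 * θ) := by
      rw [hθ]
      linarith
    have h6 : (3 * L - (W1 + 4 * Real.log 4 + 4 * θ)) * V ≤ 3 * L * V := by
      apply mul_le_mul_of_nonneg_right _ hV0.le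
      have : 0 ≤ θ := by rw [hθ]; positivity
      have : 0 ≤ W1 := sum_nonneg fun p _ => hwt0 p
      linarith
    have h7 : (C.card : ℝ) * (0.00002 * L) ≤ 3 * L * V :=
      (mul_le_mul_of_nonneg_left h5 (Nat.cast_nonneg _)).trans (h.trans h6)
    have hL0 : 0 < L := by linarith
    have h8 : L * (C.card : ℝ) ≤ L * (150000 * V) := by linarith
    exact le_of_mul_le_mul_left h8 hL0
  · intro P hP P' hP' hne
    rw [hker P hP P' hP', hK P hP P' hP']
    have h1 := sum_K_off hr (hC P hP) (hC P' hP') hne θ (hw P hP P' hP') (hw P' hP' P hP)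
    linarith
  · intro P hP
    rw [hker P hP P hP]
    have h1 : ∑ p ∈ r.primeFactors, wt p * (if col p P = col p P then (1 : ℝ) else 0) = L := by
      rw [hL, log_eq_sum hr.ne']
      exact sum_congr rfl fun p _ => by rw [if_pos rfl, mul_one]
    rw [h1]
    linarith
  · have hl2 : Real.log 2 < 0.7 := by have := Real.log_two_lt_d9; linarith
    have hl4 : Real.log 4 < 1.4 := by
      have : Real.log 4 = 2 * Real.log 2 := by
        rw [show (4 : ℝ) = 2 ^ 2 by norm_num, Real.log_pow]; norm_num
      linarith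
    rw [hθ]
    linarith
  · have hs : ∑ p : β, wt p.1 = W1 := by
      rw [hW1]; exact sum_coe_sort (P1 r) wt
    rw [hs]
    have hl2 : Real.log 2 < 0.7 := by have := Real.log_two_lt_d9; linarith
    have hl4 : Real.log 4 < 1.4 := by
      have : Real.log 4 = 2 * Real.log 2 := by
        rw [show (4 : ℝ) = 2 ^ 2 by norm_num, Real.log_pow]; norm_num
      linarith
    rw [hθ]
    linarith

end Pool.Agent.FPB
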