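import Pool.Agent.Lib_helper21.FPB.Ray

/-!
# The numerical part: `n = 1000 N` coordinates, sets of size at most `67 N`
-/

set_option autoImplicit false

namespace Pool.Agent.FPB

open Finset

/-- weight of the level `j` -/
noncomputable def lv (n j : ℕ) : ℝ := (n.choose j : ℝ) * 3 ^ j

theorem lv_pos {n j : ℕ} (h : j ≤ n) : 0 < lv n j := by
  unfold lv
  have : 0 < n.choose j := Nat.choose_pos h
  have : (0 : ℝ) < n.choose j := by exact_mod_cast this
  positivity

theorem lv_succ {n i : ℕ} (h : i ≤ n) :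
    ((i : ℝ) + 1) * lv n (i + 1) = 3 * ((n : ℝ) - i) * lv n i := by
  unfold lv
  have h1 := Nat.choose_succ_right_eq n i
  have h2 : ((n.choose (i + 1) : ℕ) : ℝ) * ((i : ℝ) + 1) = (n.choose i : ℝ) * ((n : ℝ) - i) := by
    have : (((n.choose (i + 1) * (i + 1) : ℕ)) : ℝ) = ((n.choose i * (n - i) : ℕ) : ℝ) := by
      rw [h1]
    push_cast [Nat.cast_sub h] at this
    exact this
  rw [pow_succ]
  linear_combination (3 * 3 ^ i : ℝ) * h2

/-- the off-diagonal terms of the test form -/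
theorem lv_off {n i : ℕ} (h : i + 1 ≤ n) {L : ℝ} (hL : L ^ 2 ≤ 3 * ((i : ℝ) + 1) * ((n : ℝ) - i)) :
    L ≤ ((i : ℝ) + 1) * lv n (i + 1) * ((√(lv n (i + 1)))⁻¹ * (√(lv n i))⁻¹) := by
  have p1 := lv_pos h
  have p2 := lv_pos (show i ≤ n by omega)
  have s1 := Real.sqrt_pos.2 p1
  have s2 := Real.sqrt_pos.2 p2
  have q1 := Real.sq_sqrt p1.le
  have q2 := Real.sq_sqrt p2.le
  have hsucc := lv_succ (show i ≤ n by omega)
  set X := ((i : ℝ) + 1) * lv n (i + 1) * ((√(lv n (i + 1)))⁻¹ * (√(lv n i))⁻¹) with hX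
  have hX0 : 0 ≤ X := by positivity
  have hX2 : X ^ 2 = 3 * ((i : ℝ) + 1) * ((n : ℝ) - i) := by
    rw [hX, mul_pow, mul_pow, mul_pow, inv_pow, inv_pow, q1, q2]
    have e1 : ((i : ℝ) + 1) ^ 2 * lv n (i + 1) ^ 2 * ((lv n (i + 1))⁻¹ * (lv n i)⁻¹) =
        ((i : ℝ) + 1) * (((i : ℝ) + 1) * lv n (i + 1)) * (lv n i)⁻¹ := by
      field_simp
    rw [e1, hsucc]
    field_simp
  nlinarith [sq_nonneg (L - X), abs_le_of_sq_le_sq' (show L ^ 2 ≤ X ^ 2 by rw [hX2]; exact hL) hX0]

/-- the test function -/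
noncomputable def ta (n s m j : ℕ) : ℝ := if s ≤ j ∧ j < s + m then (√(lv n j))⁻¹ else 0

theorem ta_nonneg (n s m j : ℕ) : 0 ≤ ta n s m j := by
  unfold ta
  split_ifs
  · positivity
  · exact le_refl _

theorem ta_norm {n s m : ℕ} (h : s + m ≤ n + 1) :
    ∑ j ∈ range (n + 1), (n.choose j : ℝ) * (3 ^ j * ta n s m j ^ 2) = (m : ℝ) := by
  have h1 : ∀ j ∈ range (n + 1), (n.choose j : ℝ) * (3 ^ j * ta n s m j ^ 2) =
      if j ∈ Ico s (s + m) then 1 else 0 := by
    intro j hj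
    rw [mem_range] at hj
    have p := lv_pos (show j ≤ n by omega)
    unfold ta
    by_cases hj2 : s ≤ j ∧ j < s + m
    · rw [if_pos hj2, if_pos (mem_Ico.2 hj2), inv_pow, Real.sq_sqrt p.le, ← mul_assoc]
      exact mul_inv_cancel₀ p.ne'
    · rw [if_neg hj2, if_neg (fun h => hj2 (mem_Ico.1 h))]
      ring
  rw [sum_congr rfl h1, ← sum_filter]
  have h2 : (range (n + 1)).filter (fun j => j ∈ Ico s (s + m)) = Ico s (s + m) := by
    ext j
    simp only [mem_filter, mem_range, mem_Ico]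
    omega
  rw [h2, sum_const, Nat.card_Ico]
  simp

theorem ta_form {n s m : ℕ} (h : s + m ≤ n + 1) (hm : 1 ≤ m) {L : ℝ}
    (hL : ∀ i : ℕ, s ≤ i → i + 1 < s + m → L ^ 2 ≤ 3 * ((i : ℝ) + 1) * ((n : ℝ) - i)) :
    2 * (m : ℝ) * s + 2 * ((m : ℝ) - 1) * L ≤ ∑ j ∈ range (n + 1), (n.choose j : ℝ) *
      (3 ^ j * ta n s m j * (ta n s m (j - 1) + 2 * ta n s m j) * j +
        3 * (3 ^ j * ta n s m j * ta n s m (j + 1)) * (n - j)) := by
  set t := ta n s m with ht
  have t0 : ∀ j, 0 ≤ t j := fun j => ta_nonneg n s m j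
  have hlow : ∀ j ∈ range (n + 1),
      ((if j ∈ Ico s (s + m) then 2 * (s : ℝ) else 0) + (if j ∈ Ico (s + 1) (s + m) then L else 0)) +
        (if j ∈ Ico s (s + m - 1) then L else 0) ≤
      (n.choose j : ℝ) * (3 ^ j * t j * (t (j - 1) + 2 * t j) * j +
        3 * (3 ^ j * t j * t (j + 1)) * (n - j)) := by
    intro j hj
    rw [mem_range] at hj
    have p := lv_pos (show j ≤ n by omega)
    have hnj : (0 : ℝ) ≤ (n : ℝ) - j := by
      have : (j : ℝ) ≤ n := by exact_mod_cast (show j ≤ n by omega)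
      linarith
    have e1 : (n.choose j : ℝ) * (3 ^ j * t j * (t (j - 1) + 2 * t j) * j +
        3 * (3 ^ j * t j * t (j + 1)) * (n - j)) =
        2 * (j : ℝ) * (lv n j * t j ^ 2) + j * lv n j * (t j * t (j - 1)) +
          3 * ((n : ℝ) - j) * lv n j * (t (j + 1) * t j) := by
      unfold lv; ring
    rw [e1]
    by_cases hj1 : j ∈ Ico s (s + m)
    · have hj1' := mem_Ico.1 hj1
      have tj : t j = (√(lv n j))⁻¹ := by rw [ht]; unfold ta; rw [if_pos hj1']
      have d1 : lv n j * t j ^ 2 = 1 := by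
        rw [tj, inv_pow, Real.sq_sqrt p.le]
        exact mul_inv_cancel₀ p.ne'
      have d2 : 2 * (s : ℝ) ≤ 2 * (j : ℝ) * (lv n j * t j ^ 2) := by
        rw [d1, mul_one]
        have : (s : ℝ) ≤ j := by exact_mod_cast hj1'.1
        linarith
      have d3 : (if j ∈ Ico (s + 1) (s + m) then L else 0) ≤ j * lv n j * (t j * t (j - 1)) := by
        split_ifs with hj2
        · have hj2' := mem_Ico.1 hj2
          obtain ⟨i, rfl⟩ : ∃ i, j = i + 1 := ⟨j - 1, by omega⟩
          have ti : t i = (√(lv n i))⁻¹ := by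
            rw [ht]; unfold ta; rw [if_pos ⟨by omega, by omega⟩]
          rw [Nat.add_sub_cancel, tj, ti]
          push_cast
          exact lv_off (by omega) (hL i (by omega) (by omega))
        · have := t0 j
          have := t0 (j - 1)
          positivity
      have d4 : (if j ∈ Ico s (s + m - 1) then L else 0) ≤
          3 * ((n : ℝ) - j) * lv n j * (t (j + 1) * t j) := by
        split_ifs with hj2
        · have hj2' := mem_Ico.1 hj2
          have ti : t (j + 1) = (√(lv n (j + 1)))⁻¹ := by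
            rw [ht]; unfold ta; rw [if_pos ⟨by omega, by omega⟩]
          rw [← lv_succ (by omega), tj, ti]
          exact lv_off (by omega) (hL j (by omega) (by omega))
        · have := t0 j
          have := t0 (j + 1)
          positivity
      rw [if_pos hj1]
      linarith
    · have hj1' : ¬ (s ≤ j ∧ j < s + m) := fun h => hj1 (mem_Ico.2 h)
      rw [if_neg hj1, if_neg, if_neg]
      · have := t0 j
        have := t0 (j - 1)
        have := t0 (j + 1)
        have : 0 ≤ 2 * (j : ℝ) * (lv n j * t j ^ 2) + j * lv n j * (t j * t (j - 1)) +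
          3 * ((n : ℝ) - j) * lv n j * (t (j + 1) * t j) := by positivity
        linarith
      · intro h3
        have := mem_Ico.1 h3
        omega
      · intro h3
        have := mem_Ico.1 h3
        omega
  refine le_trans ?_ (sum_le_sum hlow)
  simp only [sum_add_distrib, ← sum_filter]
  have f1 : (range (n + 1)).filter (fun j => j ∈ Ico s (s + m)) = Ico s (s + m) := by
    ext j
    simp only [mem_filter, mem_range, mem_Ico]
    omega
  have f2 : (range (n + 1)).filter (fun j => j ∈ Ico (s + 1) (s + m)) = Ico (s + 1) (s + m) := by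
    ext j
    simp only [mem_filter, mem_range, mem_Ico]
    omega
  have f3 : (range (n + 1)).filter (fun j => j ∈ Ico s (s + m - 1)) = Ico s (s + m - 1) := by
    ext j
    simp only [mem_filter, mem_range, mem_Ico]
    omega
  rw [f1, f2, f3]
  simp only [sum_const, Nat.card_Ico, nsmul_eq_mul]
  have g1 : s + m - s = m := by omega
  have g2 : s + m - (s + 1) = m - 1 := by omega
  have g3 : s + m - 1 - s = m - 1 := by omega
  rw [g1, g2, g3]
  push_cast [Nat.cast_sub hm]
  linarith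

theorem num_a {N i : ℝ} (hN : 100000000 ≤ N)
    (h : (67 * N - 100000) * (933 * N) ≤ (i + 1) * (1000 * N - i)) :
    (433.04 * N) ^ 2 ≤ 3 * (i + 1) * (1000 * N - i) := by
  nlinarith

theorem num_b {N : ℝ} (hN : 100000000 ≤ N) : 1000.05 * N * 100000 ≤
    2 * 100000 * (67 * N + 1 - 100000) + 2 * (100000 - 1) * (433.04 * N) := by
  linarith

variable {ι : Type} [Fintype ι] [DecidableEq ι]

/-- a vector `h ≥ 0`, supported on sets of size at most `67 N`, with `M h ≥ μ h` and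
`μ ≥ 1.00005 ∑ w` -/
theorem exists_sub (w : ι → ℝ) (hw : ∀ p, 0 ≤ w p) {N : ℕ} (hN : 100000000 ≤ N)
    (hn : Fintype.card ι = 1000 * N) :
    ∃ (h : Finset ι → ℝ) (μ : ℝ), (∀ S, 0 ≤ h S) ∧ (∀ S, 67 * N < S.card → h S = 0) ∧
      (∃ S, h S ≠ 0) ∧ (∀ S, μ * h S ≤ MM w h S) ∧ 1.00005 * ∑ p, w p ≤ μ := by
  set n := 1000 * N with hnn
  set m : ℕ := 100000 with hm
  set s : ℕ := 67 * N + 1 - m with hs
  have hN' : (100000000 : ℝ) ≤ N := by exact_mod_cast hN
  have hsm : s + m = 67 * N + 1 := by omega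
  have hsn : s + m ≤ n + 1 := by omega
  have hsr : (s : ℝ) = 67 * N + 1 - 100000 := by
    have : ((s + m : ℕ) : ℝ) = ((67 * N + 1 : ℕ) : ℝ) := by rw [hsm]
    push_cast [hm] at this
    linarith
  obtain ⟨h, μ, h1, h2, h3, h4, h5⟩ := exists_eigen w hw (67 * N) (ta n s m)
    (fun j hj => by unfold ta; rw [if_neg]; omega)
    ⟨67 * N, le_refl _, by rw [hn]; omega, by
      unfold ta
      rw [if_pos ⟨by omega, by omega⟩]
      exact (inv_pos.2 (Real.sqrt_pos.2 (lv_pos (by omega)))).ne'⟩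
  refine ⟨h, μ, h1, h2, h3, h4, ?_⟩
  have hW : 0 ≤ ∑ p, w p := sum_nonneg fun p _ => hw p
  have e1 : ∑ S : Finset ι, (3 : ℝ) ^ S.card * ta n s m S.card ^ 2 = m := by
    have := sum_powerset_apply_card (fun j => (3 : ℝ) ^ j * ta n s m j ^ 2) (x := (univ : Finset ι))
    rw [powerset_univ, card_univ, hn] at this
    rw [this, ← ta_norm hsn]
    exact sum_congr rfl fun j _ => by rw [nsmul_eq_mul]
  have e2 := test_form w (ta n s m)
  rw [hn] at e2
  have e3 := ta_form (L := 433.04 * N) hsn (by norm_num [hm]) (by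
    intro i hi1 hi2
    have a1 : (67 * N + 1 - 100000 : ℝ) ≤ i := by
      rw [← hsr]; exact_mod_cast hi1
    have a2 : (i : ℝ) ≤ 67 * N := by
      exact_mod_cast (show i ≤ 67 * N by omega)
    have a3 : (n : ℝ) = 1000 * N := by rw [hnn]; push_cast; ring
    rw [a3]
    have a4 : (933 * N : ℝ) ≤ 1000 * N - i := by linarith
    have a5 : (67 * N - 100000 : ℝ) ≤ (i : ℝ) + 1 := by linarith
    have a6 : (67 * N - 100000 : ℝ) * (933 * N) ≤ ((i : ℝ) + 1) * (1000 * N - i) :=
      mul_le_mul a5 a4 (by positivity) (by linarith)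
    exact num_a hN' a6)
  set q := ∑ S : Finset ι, ta n s m S.card * (3 ^ S.card * MM w (fun S => ta n s m S.card) S)
    with hq
  rw [e1] at h5
  have a3 : (n : ℝ) = 1000 * N := by rw [hnn]; push_cast; ring
  have hmr : (m : ℝ) = 100000 := by rw [hm]; norm_num
  rw [hsr, hmr] at e3
  rw [hmr] at h5
  have e4 : (1000.05 * N * 100000 : ℝ) ≤
      2 * (100000 : ℝ) * (67 * N + 1 - 100000) + 2 * ((100000 : ℝ) - 1) * (433.04 * N) := num_b hN'
  have e5 : (∑ p, w p) * (1000.05 * N * 100000 : ℝ) ≤ (n : ℝ) * q := by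
    rw [e2]
    exact mul_le_mul_of_nonneg_left (e4.trans e3) hW
  have e6 : (n : ℝ) * q ≤ (n : ℝ) * (μ * 100000) := mul_le_mul_of_nonneg_left h5 (by positivity)
  have e7 := e5.trans e6
  rw [a3] at e7
  have hN0 : (0 : ℝ) < N * 100000 := by positivity
  have e8 : (N * 100000 : ℝ) * (1000.05 * ∑ p, w p) ≤ (N * 100000 : ℝ) * (1000 * μ) := by
    linarith
  have e9 := le_of_mul_le_mul_left e8 hN0
  linarith

theorem num_nat : 1000 ^ 1000 * 2799 ^ 67 * 10000 ^ 1000 ≤ 933 ^ 1000 * 67 ^ 67 * 13764 ^ 1000 := by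
  decide +kernel

theorem num_real : (1000 / 933 : ℝ) ^ 1000 ≤ (67 / 2799 : ℝ) ^ 67 * (13764 / 10000 : ℝ) ^ 1000 := by
  have h : (1000 : ℝ) ^ 1000 * 2799 ^ 67 * 10000 ^ 1000 ≤ 933 ^ 1000 * 67 ^ 67 * 13764 ^ 1000 := by
    exact_mod_cast num_nat
  rw [div_pow, div_pow, div_pow, ← mul_div_mul_comm, div_le_div_iff₀ (by positivity)
    (by positivity)]
  calc (1000 : ℝ) ^ 1000 * (2799 ^ 67 * 10000 ^ 1000) =
      1000 ^ 1000 * 2799 ^ 67 * 10000 ^ 1000 := by rw [mul_assoc]
    _ ≤ 933 ^ 1000 * 67 ^ 67 * 13764 ^ 1000 := h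
    _ = 67 ^ 67 * 13764 ^ 1000 * 933 ^ 1000 := by
        rw [mul_assoc, mul_comm]

omit [DecidableEq ι] in
/-- the volume -/
theorem volume_bound {N : ℕ} (hn : Fintype.card ι = 1000 * N) :
    ∑ S ∈ (univ : Finset (Finset ι)).filter (fun S => S.card ≤ 67 * N), (3 : ℝ) ^ S.card ≤
      (1.3764 : ℝ) ^ (1000 * N) := by
  set x : ℝ := 67 / 2799 with hx
  have hx0 : 0 < x := by norm_num [hx]
  have hx1 : x ≤ 1 := by norm_num [hx]
  have h1 : x ^ (67 * N) * ∑ S ∈ (univ : Finset (Finset ι)).filter (fun S => S.card ≤ 67 * N),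
      (3 : ℝ) ^ S.card ≤ (1 + 3 * x) ^ (1000 * N) := by
    have h2 : (1 + 3 * x) ^ (1000 * N) = ∑ S : Finset ι, (3 * x) ^ S.card := by
      have := Finset.sum_pow_mul_eq_add_pow (3 * x) 1 (univ : Finset ι)
      rw [powerset_univ, card_univ, hn] at this
      rw [add_comm, ← this]
      exact sum_congr rfl fun S _ => by rw [one_pow, mul_one]
    rw [h2, mul_sum]
    refine le_trans ?_ (sum_le_sum_of_subset_of_nonneg
      (filter_subset (fun S : Finset ι => S.card ≤ 67 * N) univ) fun S _ _ => by positivity)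
    refine sum_le_sum fun S hS => ?_
    rw [mem_filter] at hS
    rw [mul_pow, mul_comm]
    exact mul_le_mul_of_nonneg_left (pow_le_pow_of_le_one hx0.le hx1 hS.2) (by positivity)
  have h3 : (1 + 3 * x) ^ 1000 ≤ x ^ 67 * (1.3764 : ℝ) ^ 1000 := by
    have e1 : 1 + 3 * x = 1000 / 933 := by rw [hx]; norm_num
    have e2 : (1.3764 : ℝ) = 13764 / 10000 := by norm_num
    rw [e1, e2, hx]
    exact num_real
  have h4 : (1 + 3 * x) ^ (1000 * N) ≤ x ^ (67 * N) * (1.3764 : ℝ) ^ (1000 * N) := by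
    rw [pow_mul, pow_mul, pow_mul, ← mul_pow]
    exact pow_le_pow_left₀ (by positivity) h3 N
  exact le_of_mul_le_mul_left (h1.trans h4) (by positivity)

end Pool.Agent.FPB
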